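import Mathlib
import Pool.Agent.H23.Base.Defs

/-!
Definitions: a finite separable extension `K'` of a global field `K`, its places and Hecke
characters, and base change from `K` to `K'`.
-/

namespace Pool.H81.FX

open Pool.H73.Func Pool.H23.Stab Pool.H23.Base Filter Topology

/-- The `f`-th roots of the elements of `M`: the eigenvalues of a Frobenius of `K` on a
representation induced from the unramified extension of degree `f`, if `M` are the eigenvalues of
the Frobenius of the extension. -/
noncomputable def rt (f : ℕ) (M : Multiset ℂ) : Multiset ℂ :=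
  M.bind fun a => Polynomial.nthRoots f a

/-- A finite separable extension `K'` of the global field `K`, with the Hecke characters of finite
order of `K'` and the twists of the cuspidal representations of the groups `GL(n)` over `K'`. -/
structure FinExt (A A' : RamSide) where
  /-- The degree of `K'` over `K`. -/
  degree : ℕ
  /-- The place of `K` below a place of `K'`. -/
  below : A'.Place → A.Place
  /-- The places of `K'` above a place of `K`. -/
  above : A.Place → Finset A'.Place
  mem_above : ∀ v w, w ∈ above v ↔ below w = v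
  /-- The residue degree. -/
  res : A'.Place → ℕ
  res_pos : ∀ w, 1 ≤ res w
  sum_res : ∀ v, ∑ w ∈ above v, res w ≤ degree
  nm_below : ∀ w, A'.nm w = A.nm (below w) ^ res w
  /-- The places of `K` which ramify in `K'`. -/
  Ram : Set A.Place
  ram_finite : Ram.Finite
  /-- The zeta functions of `K` and of `K'` have simple poles at `1`. -/
  ratio : Tendsto (fun s : ℝ => (∑' w, A'.nm w ^ (-s)) / ∑' v, A.nm v ^ (-s)) (𝓝[>] 1) (𝓝 1)
  /-- The Hecke characters of finite order of `K'`. -/
  Chr : Type
  [cgrp : CommGroup Chr]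
  /-- The places where `χ` is unramified. -/
  cunr : Chr → Set A'.Place
  cunr_cofinite : ∀ χ, (cunr χ)ᶜ.Finite
  /-- The value of `χ` at a uniformizer of `w`. -/
  val : Chr → A'.Place → ℂ
  norm_val : ∀ χ, ∀ w ∈ cunr χ, ‖val χ w‖ = 1
  cunr_one : cunr 1 = Set.univ
  cunr_mul : ∀ χ ψ, cunr χ ∩ cunr ψ ⊆ cunr (χ * ψ)
  cunr_inv : ∀ χ, cunr χ⁻¹ = cunr χ
  val_one : ∀ w, val 1 w = 1
  val_mul : ∀ χ ψ, ∀ w ∈ cunr χ ∩ cunr ψ, val (χ * ψ) w = val χ w * val ψ w
  /-- The twist `σ ⊗ χ`. -/
  tw : Chr → A'.Cusp → A'.Cusp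
  tw_one : ∀ σ, tw 1 σ = σ
  deg_tw : ∀ χ σ, A'.deg (tw χ σ) = A'.deg σ
  expo_tw : ∀ χ σ, A'.expo (tw χ σ) = A'.expo σ
  unr_tw : ∀ χ σ, cunr χ ∩ A'.unr σ ⊆ A'.unr (tw χ σ)
  par_tw : ∀ χ σ, ∀ w ∈ cunr χ ∩ A'.unr σ,
    A'.par (tw χ σ) w = (A'.par σ w).map fun a => val χ w * a
  /-- Grunwald-Wang: there are characters with prescribed values at the places above `v`. -/
  sep : ∀ (w : A'.Place) (S : Set ℂ), S.Finite → ∃ χ : Chr,
    (∀ w' ∈ above (below w), w' ∈ cunr χ ∧ (w' ≠ w → val χ w' = 1)) ∧ val χ w ∉ S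
  /-- There are characters `χ_i` such that the representations of the Galois group of `K` induced
  by the quotients `χ_i / χ_j`, `i ≠ j`, are irreducible: the mean value of the square of the
  absolute value of their characters is `1` (Chebotarev). -/
  moving : ∃ χ : ℕ → Chr, ∀ i j, i ≠ j → Tendsto (fun s : ℝ => mean A.toGLSide s fun v =>
    ‖∑ w ∈ (above v).filter fun w => res w = 1,
      (cunr (χ i * (χ j)⁻¹)).indicator (val (χ i * (χ j)⁻¹)) w‖ ^ 2) (𝓝[>] 1) (𝓝 1)

attribute [instance] FinExt.cgrp

variable {A A' : RamSide}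

/-- The isobaric sum `Q` over `K'` is a base change of the isobaric sum `P` over `K`: it is
unramified with the right Satake parameters at all places above places `v` of `K` which are
unramified in `K'` and for `P`. -/
def FinExt.IsBaseChange (E : FinExt A A') (P : Multiset A.Cusp) (Q : Multiset A'.Cusp) : Prop :=
  ∀ w, E.below w ∉ E.Ram → (∀ σ ∈ P, E.below w ∈ A.unr σ) → (∀ τ ∈ Q, w ∈ A'.unr τ) ∧
    params A'.toGLSide Q w = (params A.toGLSide P (E.below w)).map fun a => a ^ E.res w

end Pool.H81.FX
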