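import Mathlib
import Pool.Agent.H81.FX.FinExt

/-!
Definitions: functorial liftings over a global field `K` and over an arbitrary finite separable
extension `K'` of `K`.
-/

namespace Pool.H81.FX

open Pool.H73.Func Pool.H23.Stab Pool.H23.Base Filter Topology

/-- The known facts on a finite separable extension `K'` of a global field `K` and automorphic
representations over `K` (theories `A`, `B`) and over `K'` (theories `A'`, `B'`).
`D` is the semiring (direct sum, tensor product) of the families, indexed by all places `v` of `K`,
of isomorphism classes of semisimple representations of `W_v × SL(2)` (of `W_v` for archimedean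
`v`), of the same dimension for all `v`; `D'` is the same for `K'`. -/
structure Lang (A A' : RamSide) (B : LSide A.toGLSide) (B' : LSide A'.toGLSide) extends
    FinExt A A' where
  D : Type
  [semi : CommSemiring D]
  D' : Type
  [semi' : CommSemiring D']
  /-- The local Langlands parameters of a cuspidal representation at all places (Harris-Taylor,
  Henniart, Langlands; Laumon-Rapoport-Stuhler). -/
  cls : A.Cusp → D
  cls' : A'.Cusp → D'
  /-- Induction and restriction of families of parameters. -/
  ind : D' →+ D
  rs : D → D'
  proj : ∀ a b, ind (rs a * b) = a * ind b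
  /-- The complete `L`-functions `L(s, a)` and `L(s, a^∨)` converge for large `Re s`, extend to
  entire functions which are bounded in vertical strips, and satisfy the functional equation
  `L(s, a) = ε(s, a) L(1 - s, a^∨)`. -/
  Nice : D → Prop
  Nice' : D' → Prop
  nice_zero : Nice 0
  nice_add : ∀ a b, Nice a → Nice b → Nice (a + b)
  /-- `L`- and `ε`-factors are inductive. -/
  nice_ind : ∀ b, Nice (ind b) → Nice' b
  /-- The parameter at `v` has no unramified constituent. -/
  wild : A.Place → D → Prop
  wild' : A'.Place → D' → Prop
  wild_add : ∀ v a b, wild v (a + b) → wild v a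
  wild_ind : ∀ v b, (∀ w ∈ above v, wild' w b) → wild v (ind b)
  /-- Jacquet-Piatetski-Shapiro-Shalika, Gelbart-Shahidi: Rankin-Selberg `L`-functions are nice
  (there is no pole if `σ` is not a twist of the dual of `π` by a power of `|.|`; such a twist is
  unramified where `π` is). -/
  rankin : ∀ π σ v, v ∈ A.unr π → wild v (cls σ) → Nice (cls π * cls σ)
  /-- The converse theorem of Cogdell and Piatetski-Shapiro over `K'` for the base change of a
  cuspidal representation `π` over `K`, for the twists which are ramified at all places above a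
  place `v` where `π` is unramified. -/
  converse : ∀ π v, v ∈ A.unr π → v ∉ Ram →
    (∀ θ, A'.deg θ < A.deg π → (∀ w ∈ above v, wild' w (cls' θ)) → Nice' (rs (cls π) * cls' θ)) →
    ∃ Q : Multiset A'.Cusp, ∀ w, w ∉ above v → below w ∉ Ram → below w ∈ A.unr π →
      (∀ τ ∈ Q, w ∈ A'.unr τ) ∧
        params A'.toGLSide Q w = (A.par π (below w)).map fun a => a ^ res w
  /-- The unramified places and the Satake parameters of an automorphic induction. -/
  par_ind : ∀ (θ : A'.Cusp) (P : Multiset A.Cusp), (P.map cls).sum = ind (cls' θ) →
    ∀ v, v ∉ Ram → ((∀ σ ∈ P, v ∈ A.unr σ) ↔ ∀ w ∈ above v, w ∈ A'.unr θ) ∧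
      ((∀ w ∈ above v, w ∈ A'.unr θ) →
        params A.toGLSide P v = ∑ w ∈ above v, rt (res w) (A'.par θ w))
  /-- Restriction of scalars from `K'` to `K` of the representation `π' ⊠ χ` of `G' × GL(1)`, with
  the representation of its `L`-group induced by `ρ' ⊗ χ`. -/
  restriction : ∀ (π' : B'.Rep) (χ : Chr) (ι : Type) [Fintype ι] [DecidableEq ι],
    ∀ ρ' ∈ B'.alg π' ι, ∃ (π : B.Rep) (κ : Type) (_ : Fintype κ) (_ : DecidableEq κ),
      ∃ ρ ∈ B.alg π κ, ∀ v, v ∉ Ram → (∀ w ∈ above v, w ∈ B'.U π' ∩ cunr χ) →
        v ∈ B.U π ∧ (ρ (B.c π v)).charpoly.roots =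
          ∑ w ∈ above v, rt (res w)
            ((ρ' (B'.c π' w)).charpoly.roots.map fun a => val χ w * a)

attribute [instance] Lang.semi Lang.semi'

variable {A A' : RamSide} {B : LSide A.toGLSide} {B' : LSide A'.toGLSide}

/-- The isobaric sum `P` over `K` is the automorphic induction of the cuspidal representation `θ`
over `K'`: the local Langlands parameters agree at all places. -/
def Lang.IsInd (E : Lang A A' B B') (θ : A'.Cusp) (P : Multiset A.Cusp) : Prop :=
  (P.map E.cls).sum = E.ind (E.cls' θ)

/-- The places `w` of `K'` over a place of `K` which is unramified in `K'` and over which `π'` is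
unramified. -/
def Lang.Good (E : Lang A A' B B') (π' : B'.Rep) : Set A'.Place :=
  {w | E.below w ∉ E.Ram ∧ ∀ w' ∈ E.above (E.below w), w' ∈ B'.U π'}

end Pool.H81.FX
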