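import Mathlib
import Pool.Agent.H81.FX.FinExt
import Pool.Agent.H23.Base.Comb

/-!
Base change from base change away from one place.
-/

namespace Pool.H81.FX

open Pool.H73.Func Pool.H23.Stab Pool.H23.Base Filter Topology

/-- **Strong multiplicity one.** -/
theorem eq_of_params (A : RamSide) (P Q : Multiset A.Cusp) (X : Set A.Place) (hX : X.Finite)
    (h : ∀ v, v ∉ X → (∀ σ ∈ P, v ∈ A.unr σ) ∧ (∀ σ ∈ Q, v ∈ A.unr σ) ∧
      params A.toGLSide P v = params A.toGLSide Q v) : P = Q := by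
  classical
  by_contra hne
  obtain ⟨r, hr⟩ := exists_layer_ne A P Q hne
  apply hr
  apply eq_of_small A _ _ (expo_layer A P r) (expo_layer A Q r)
  refine (small_zero (A := A)).congr
    (((layer A P r).map A.deg).sum + ((layer A Q r).map A.deg).sum : ℕ) ?_ X hX ?_
  · intro w
    have h1 := norm_T_le A _ (expo_layer A P r) w
    have h2 := norm_T_le A _ (expo_layer A Q r) w
    have h3 := norm_sub_le (T A (layer A P r) w) (T A (layer A Q r) w)
    rw [Nat.cast_add]
    linarith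
  · intro w hw
    obtain ⟨h1, h2, h3⟩ := h w hw
    rw [T_eq_params A _ w (unr_layer A P r w h1), T_eq_params A _ w (unr_layer A Q r w h2),
      params_layer A P r w h1, params_layer A Q r w h2, h3, sub_self]

variable {A A' : RamSide}

theorem above_finite (E : FinExt A A') (X : Set A.Place) (hX : X.Finite) :
    (E.below ⁻¹' X).Finite := by
  have h : E.below ⁻¹' X ⊆ ⋃ v ∈ X, (E.above v : Set A'.Place) := by
    intro w hw
    simp only [Set.mem_iUnion]
    exact ⟨E.below w, hw, Finset.mem_coe.2 ((E.mem_above _ _).2 rfl)⟩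
  exact (Set.Finite.biUnion hX fun v _ => (E.above v).finite_toSet).subset h

/-- Base change of a cuspidal representation. -/
theorem bc_cusp (E : FinExt A A') (π : A.Cusp)
    (hoff : ∀ v ∈ A.unr π, v ∉ E.Ram → ∃ Q : Multiset A'.Cusp, ∀ w, w ∉ E.above v →
      E.below w ∉ E.Ram → E.below w ∈ A.unr π → (∀ τ ∈ Q, w ∈ A'.unr τ) ∧
        params A'.toGLSide Q w = (A.par π (E.below w)).map fun a => a ^ E.res w) :
    ∃ Q : Multiset A'.Cusp, ∀ w, E.below w ∉ E.Ram → E.below w ∈ A.unr π →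
      (∀ τ ∈ Q, w ∈ A'.unr τ) ∧
        params A'.toGLSide Q w = (A.par π (E.below w)).map fun a => a ^ E.res w := by
  classical
  have hinf := A.inf
  have hfin : (E.Ram ∪ (A.unr π)ᶜ).Finite := E.ram_finite.union (A.unr_cofinite π)
  obtain ⟨v, hv⟩ := hfin.infinite_compl.nonempty
  obtain ⟨v', hv'⟩ := (hfin.union (Set.finite_singleton v)).infinite_compl.nonempty
  simp only [Set.mem_compl_iff, Set.mem_union, not_or, not_not, Set.mem_singleton_iff] at hv hv'
  obtain ⟨Q, hQ⟩ := hoff v hv.2 hv.1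
  obtain ⟨Q', hQ'⟩ := hoff v' hv'.1.2 hv'.1.1
  have hne : v' ≠ v := hv'.2
  have hQQ : Q = Q' := by
    apply eq_of_params A' Q Q' (E.below ⁻¹' (E.Ram ∪ (A.unr π)ᶜ ∪ {v, v'}))
      (above_finite E _ (hfin.union (by simp)))
    intro w hw
    simp only [Set.mem_preimage, Set.mem_union, Set.mem_compl_iff, Set.mem_insert_iff,
      Set.mem_singleton_iff, not_or, not_not] at hw
    obtain ⟨⟨h1, h2⟩, h3, h4⟩ := hw
    obtain ⟨a1, a2⟩ := hQ w (fun h => h3 ((E.mem_above _ _).1 h)) h1 h2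
    obtain ⟨b1, b2⟩ := hQ' w (fun h => h4 ((E.mem_above _ _).1 h)) h1 h2
    exact ⟨a1, b1, a2.trans b2.symm⟩
  refine ⟨Q, fun w h1 h2 => ?_⟩
  by_cases h : w ∈ E.above v
  · rw [hQQ]
    apply hQ' w _ h1 h2
    intro h3
    exact hne (((E.mem_above _ _).1 h3).symm.trans ((E.mem_above _ _).1 h))
  · exact hQ w h h1 h2

/-- **Base change** of isobaric sums. -/
theorem bc_isobaric (E : FinExt A A')
    (hoff : ∀ (π : A.Cusp), ∀ v ∈ A.unr π, v ∉ E.Ram → ∃ Q : Multiset A'.Cusp, ∀ w,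
      w ∉ E.above v → E.below w ∉ E.Ram → E.below w ∈ A.unr π → (∀ τ ∈ Q, w ∈ A'.unr τ) ∧
        params A'.toGLSide Q w = (A.par π (E.below w)).map fun a => a ^ E.res w)
    (P : Multiset A.Cusp) : ∃ Q : Multiset A'.Cusp, E.IsBaseChange P Q := by
  induction P using Multiset.induction_on with
  | empty =>
    refine ⟨0, fun w _ _ => ⟨fun τ hτ => absurd hτ (Multiset.notMem_zero τ), ?_⟩⟩
    simp [params]
  | cons π P ih =>
    obtain ⟨Q, hQ⟩ := ih
    obtain ⟨Q', hQ'⟩ := bc_cusp E π (hoff π)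
    refine ⟨Q' + Q, fun w h1 h2 => ?_⟩
    obtain ⟨a1, a2⟩ := hQ w h1 fun σ hσ => h2 σ (Multiset.mem_cons_of_mem hσ)
    obtain ⟨b1, b2⟩ := hQ' w h1 (h2 π (Multiset.mem_cons_self _ _))
    refine ⟨fun τ hτ => ?_, ?_⟩
    · rcases Multiset.mem_add.1 hτ with h | h
      · exact b1 τ h
      · exact a1 τ h
    · rw [params_add, params_cons, Multiset.map_add, a2, b2]

end Pool.H81.FX
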