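import Mathlib
import Pool.Agent.H81.FX.Gen
import Pool.Agent.H81.FX.Defs

/-!
Base change from automorphic induction, by the converse theorem.
-/

namespace Pool.H81.FX

open Pool.H73.Func Pool.H23.Stab Pool.H23.Base Filter Topology

variable {A A' : RamSide} {B : LSide A.toGLSide} {B' : LSide A'.toGLSide}

theorem wild_sum (E : Lang A A' B B') (v : A.Place) (P : Multiset A.Cusp)
    (h : E.wild v (P.map E.cls).sum) : ∀ σ ∈ P, E.wild v (E.cls σ) := by
  intro σ hσ
  obtain ⟨R, rfl⟩ := Multiset.exists_cons_of_mem hσ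
  rw [Multiset.map_cons, Multiset.sum_cons] at h
  exact E.wild_add v _ _ h

theorem nice_mul (E : Lang A A' B B') (π : A.Cusp) (v : A.Place) (hv : v ∈ A.unr π)
    (P : Multiset A.Cusp) (h : ∀ σ ∈ P, E.wild v (E.cls σ)) :
    E.Nice (E.cls π * (P.map E.cls).sum) := by
  induction P using Multiset.induction_on with
  | empty =>
    rw [Multiset.map_zero, Multiset.sum_zero, mul_zero]
    exact E.nice_zero
  | cons σ P ih =>
    rw [Multiset.map_cons, Multiset.sum_cons, mul_add]
    exact E.nice_add _ _ (E.rankin π σ v hv (h σ (Multiset.mem_cons_self _ _)))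
      (ih fun τ hτ => h τ (Multiset.mem_cons_of_mem hτ))

/-- Base change of a cuspidal representation, away from one place. -/
theorem bc_off (E : Lang A A' B B') (hI : ∀ θ : A'.Cusp, ∃ P : Multiset A.Cusp, E.IsInd θ P)
    (π : A.Cusp) (v : A.Place) (hv : v ∈ A.unr π) (hR : v ∉ E.Ram) :
    ∃ Q : Multiset A'.Cusp, ∀ w, w ∉ E.above v → E.below w ∉ E.Ram → E.below w ∈ A.unr π →
      (∀ τ ∈ Q, w ∈ A'.unr τ) ∧
        params A'.toGLSide Q w = (A.par π (E.below w)).map fun a => a ^ E.res w := by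
  apply E.converse π v hv hR
  intro θ _ hθ
  obtain ⟨P, hP⟩ := hI θ
  apply E.nice_ind
  rw [E.proj, ← hP]
  apply nice_mul E π v hv P
  apply wild_sum E v P
  rw [hP]
  exact E.wild_ind v _ hθ

/-- **Base change** of isobaric sums. -/
theorem baseChange (E : Lang A A' B B') (hI : ∀ θ : A'.Cusp, ∃ P : Multiset A.Cusp, E.IsInd θ P)
    (P : Multiset A.Cusp) : ∃ Q : Multiset A'.Cusp, E.IsBaseChange P Q :=
  bc_isobaric E.toFinExt (fun π v hv hR => bc_off E hI π v hv hR) P

end Pool.H81.FX
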