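import Mathlib
import Pool.Agent.H81.FX.FinExt

/-!
The multisets of roots.
-/

namespace Pool.H81.FX

open Polynomial

theorem nth_eq {n : ℕ} (hn : 1 ≤ n) {a b : ℂ} (e : b ^ n = a) :
    nthRoots n a = (Multiset.range n).map fun i => Complex.exp (2 * Real.pi * Complex.I / n) ^ i * b
    := (Complex.isPrimitiveRoot_exp n (by omega)).nthRoots_eq e

theorem exists_root {n : ℕ} (hn : 1 ≤ n) (a : ℂ) : ∃ b : ℂ, b ^ n = a :=
  IsAlgClosed.exists_pow_nat_eq a (by omega)

theorem card_nth {n : ℕ} (hn : 1 ≤ n) (a : ℂ) : (nthRoots n a).card = n := by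
  obtain ⟨b, hb⟩ := exists_root hn a
  rw [nth_eq hn hb, Multiset.card_map, Multiset.card_range]

theorem pow_nth {n : ℕ} (hn : 1 ≤ n) (a : ℂ) :
    (nthRoots n a).map (fun z => z ^ n) = Multiset.replicate n a := by
  rw [Multiset.eq_replicate]
  refine ⟨by rw [Multiset.card_map, card_nth hn], ?_⟩
  intro b hb
  obtain ⟨z, hz, rfl⟩ := Multiset.mem_map.1 hb
  exact (mem_nthRoots (by omega)).1 hz

theorem mul_nth {n : ℕ} (hn : 1 ≤ n) (c a : ℂ) :
    (nthRoots n a).map (fun z => c * z) = nthRoots n (c ^ n * a) := by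
  obtain ⟨b, hb⟩ := exists_root hn a
  rw [nth_eq hn hb, nth_eq hn (show (c * b) ^ n = c ^ n * a by rw [mul_pow, hb]),
    Multiset.map_map]
  apply Multiset.map_congr rfl
  intro i _
  simp only [Function.comp_apply]
  ring

theorem sum_nth {n : ℕ} (hn : 2 ≤ n) (a : ℂ) : (nthRoots n a).sum = 0 := by
  obtain ⟨b, hb⟩ := exists_root (by omega : 1 ≤ n) a
  rw [nth_eq (by omega) hb, Multiset.sum_map_mul_right]
  have h := (Complex.isPrimitiveRoot_exp n (by omega)).geom_sum_eq_zero (by omega)
  have e : ((Multiset.range n).map fun i =>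
      Complex.exp (2 * Real.pi * Complex.I / n) ^ i).sum
      = ∑ i ∈ Finset.range n, Complex.exp (2 * Real.pi * Complex.I / n) ^ i := rfl
  rw [e, h, zero_mul]

theorem nth_one (a : ℂ) : nthRoots 1 a = {a} := by
  rw [nth_eq le_rfl (pow_one a)]
  simp

theorem rt_zero (f : ℕ) : rt f 0 = 0 := by simp [rt]

theorem rt_cons (f : ℕ) (a : ℂ) (M : Multiset ℂ) : rt f (a ::ₘ M) = nthRoots f a + rt f M := by
  simp [rt]

theorem rt_add (f : ℕ) (M N : Multiset ℂ) : rt f (M + N) = rt f M + rt f N := by
  simp [rt]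

theorem mem_rt {f : ℕ} (hf : 1 ≤ f) {M : Multiset ℂ} {z : ℂ} : z ∈ rt f M ↔ z ^ f ∈ M := by
  rw [rt, Multiset.mem_bind]
  constructor
  · rintro ⟨a, ha, hz⟩
    rw [mem_nthRoots (by omega)] at hz
    rwa [hz]
  · intro h
    exact ⟨z ^ f, h, (mem_nthRoots (by omega)).2 rfl⟩

theorem card_rt {f : ℕ} (hf : 1 ≤ f) (M : Multiset ℂ) : (rt f M).card = f * M.card := by
  induction M using Multiset.induction_on with
  | empty => simp [rt_zero]
  | cons a M ih =>
    rw [rt_cons, Multiset.card_add, ih, card_nth hf, Multiset.card_cons]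
    ring

theorem pow_rt {f : ℕ} (hf : 1 ≤ f) (M : Multiset ℂ) :
    (rt f M).map (fun z => z ^ f) = f • M := by
  induction M using Multiset.induction_on with
  | empty => simp [rt_zero]
  | cons a M ih =>
    rw [rt_cons, Multiset.map_add, ih, pow_nth hf, ← Multiset.singleton_add a M, nsmul_add,
      Multiset.nsmul_singleton]

theorem rt_inj {f : ℕ} (hf : 1 ≤ f) {M N : Multiset ℂ} (h : rt f M = rt f N) : M = N := by
  classical
  have h1 : f • M = f • N := by rw [← pow_rt hf, ← pow_rt hf, h]
  ext a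
  have h2 := congrArg (Multiset.count a) h1
  rw [Multiset.count_nsmul, Multiset.count_nsmul] at h2
  exact Nat.eq_of_mul_eq_mul_left (by omega) h2

theorem mul_rt {f : ℕ} (hf : 1 ≤ f) (c : ℂ) (M : Multiset ℂ) :
    (rt f M).map (fun z => c * z) = rt f (M.map fun a => c ^ f * a) := by
  induction M using Multiset.induction_on with
  | empty => simp [rt_zero]
  | cons a M ih => rw [rt_cons, Multiset.map_add, ih, mul_nth hf, Multiset.map_cons, rt_cons]

theorem sum_rt_one (M : Multiset ℂ) : (rt 1 M).sum = M.sum := by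
  induction M using Multiset.induction_on with
  | empty => simp [rt_zero]
  | cons a M ih => rw [rt_cons, Multiset.sum_add, ih, nth_one, Multiset.sum_singleton,
      Multiset.sum_cons]

theorem rt_one (M : Multiset ℂ) : rt 1 M = M := by
  induction M using Multiset.induction_on with
  | empty => simp [rt_zero]
  | cons a M ih => rw [rt_cons, ih, nth_one, Multiset.singleton_add]

theorem sum_rt {f : ℕ} (hf : 2 ≤ f) (M : Multiset ℂ) : (rt f M).sum = 0 := by
  induction M using Multiset.induction_on with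
  | empty => simp [rt_zero]
  | cons a M ih => rw [rt_cons, Multiset.sum_add, ih, sum_nth hf, zero_add]

open Classical in
theorem filter_rt {f : ℕ} (hf : 1 ≤ f) (q r : ℝ) (hq : 0 < q) (M : Multiset ℂ) :
    (rt f M).filter (fun z => ‖z‖ = q ^ r) = rt f (M.filter fun a => ‖a‖ = (q ^ f) ^ r) := by
  have key : ∀ z : ℂ, ‖z‖ = q ^ r ↔ ‖z ^ f‖ = (q ^ f) ^ r := by
    intro z
    rw [norm_pow, ← Real.rpow_natCast q f, ← Real.rpow_mul hq.le, mul_comm, Real.rpow_mul hq.le,
      Real.rpow_natCast]
    constructor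
    · intro h; rw [h]
    · intro h
      exact (pow_left_inj₀ (norm_nonneg _) (Real.rpow_nonneg hq.le _) (by omega)).1 h
  induction M using Multiset.induction_on with
  | empty => simp [rt_zero]
  | cons a M ih =>
    rw [rt_cons, Multiset.filter_add, ih]
    by_cases h : ‖a‖ = (q ^ f) ^ r
    · rw [Multiset.filter_cons_of_pos (p := fun a => ‖a‖ = (q ^ f) ^ r) _ h, rt_cons]
      congr 1
      apply Multiset.filter_eq_self.2
      intro z hz
      rw [key z, (mem_nthRoots (by omega)).1 hz]
      exact h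
    · rw [Multiset.filter_cons_of_neg (p := fun a => ‖a‖ = (q ^ f) ^ r) _ h]
      have e : (nthRoots f a).filter (fun z => ‖z‖ = q ^ r) = 0 := by
        apply Multiset.filter_eq_nil.2
        intro z hz
        rw [key z, (mem_nthRoots (by omega)).1 hz]
        exact h
      rw [e, zero_add]

/-- Cancellation in the presence of a free parameter. -/
theorem cancel_rt {f : ℕ} (hf : 1 ≤ f) {M N R R' : Multiset ℂ} {u : ℂ} (hu : u ≠ 0)
    (h : rt f (M.map fun a => u * a) + R = rt f (N.map fun a => u * a) + R')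
    (h1 : ∀ a ∈ M, ∀ z ∈ R', z ^ f ≠ u * a) (h2 : ∀ a ∈ N, ∀ z ∈ R, z ^ f ≠ u * a) : M = N := by
  classical
  have e : rt f (M.map fun a => u * a) = rt f (N.map fun a => u * a) := by
    ext z
    have h3 := congrArg (Multiset.count z) h
    rw [Multiset.count_add, Multiset.count_add] at h3
    by_cases hM : z ∈ rt f (M.map fun a => u * a)
    · have h4 : z ∉ R' := by
        intro h5
        obtain ⟨a, ha, h6⟩ := Multiset.mem_map.1 ((mem_rt hf).1 hM)
        exact h1 a ha z h5 h6.symm
      rw [Multiset.count_eq_zero_of_notMem h4, add_zero] at h3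
      have h7 : 0 < Multiset.count z (rt f (M.map fun a => u * a)) := Multiset.count_pos.2 hM
      have h8 : z ∈ rt f (N.map fun a => u * a) := Multiset.count_pos.1 (by omega)
      have h9 : z ∉ R := by
        intro h5
        obtain ⟨a, ha, h6⟩ := Multiset.mem_map.1 ((mem_rt hf).1 h8)
        exact h2 a ha z h5 h6.symm
      rw [Multiset.count_eq_zero_of_notMem h9, add_zero] at h3
      exact h3
    · by_cases hN : z ∈ rt f (N.map fun a => u * a)
      · have h9 : z ∉ R := by
          intro h5
          obtain ⟨a, ha, h6⟩ := Multiset.mem_map.1 ((mem_rt hf).1 hN)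
          exact h2 a ha z h5 h6.symm
        rw [Multiset.count_eq_zero_of_notMem hM, Multiset.count_eq_zero_of_notMem h9] at h3
        have := Multiset.count_pos.2 hN
        omega
      · rw [Multiset.count_eq_zero_of_notMem hM, Multiset.count_eq_zero_of_notMem hN]
  have e2 := rt_inj hf e
  have e3 := congrArg (Multiset.map fun a => u⁻¹ * a) e2
  rw [Multiset.map_map, Multiset.map_map] at e3
  simpa [Function.comp_def, ← mul_assoc, inv_mul_cancel₀ hu] using e3

end Pool.H81.FX
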