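import Mathlib

/-!
A finite inequality: the average of the conjugates.
-/

namespace Pool.H81.FX

open Finset

variable {α : Type*}

theorem sum_sq_pairs (W : Finset α) (N : ℕ) (a : ℕ → α → ℂ) :
    ∑ w ∈ W, ∑ u ∈ W, ‖∑ i ∈ range N, (starRingEnd ℂ) (a i w) * a i u‖ ^ 2
      = ∑ i ∈ range N, ∑ j ∈ range N, ‖∑ w ∈ W, a i w * (starRingEnd ℂ) (a j w)‖ ^ 2 := by
  have h : ((∑ w ∈ W, ∑ u ∈ W, ‖∑ i ∈ range N, (starRingEnd ℂ) (a i w) * a i u‖ ^ 2 : ℝ) : ℂ)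
      = ((∑ i ∈ range N, ∑ j ∈ range N, ‖∑ w ∈ W, a i w * (starRingEnd ℂ) (a j w)‖ ^ 2 : ℝ) : ℂ) := by
    have e' : ∀ z : ℂ, ((‖z‖ : ℝ) : ℂ) ^ 2 = z * (starRingEnd ℂ) z := by
      intro z
      rw [Complex.mul_conj, Complex.normSq_eq_norm_sq]
      push_cast
      rfl
    push_cast
    simp only [e', map_sum, map_mul, Complex.conj_conj, Finset.sum_mul_sum]
    calc ∑ w ∈ W, ∑ u ∈ W, ∑ i ∈ range N, ∑ j ∈ range N,
          (starRingEnd ℂ) (a i w) * a i u * (a j w * (starRingEnd ℂ) (a j u))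
        = ∑ i ∈ range N, ∑ j ∈ range N, ∑ w ∈ W, ∑ u ∈ W,
          (starRingEnd ℂ) (a i w) * a i u * (a j w * (starRingEnd ℂ) (a j u)) := by
          rw [Finset.sum_congr rfl fun w _ => Finset.sum_comm, Finset.sum_comm]
          apply Finset.sum_congr rfl
          intro i _
          rw [Finset.sum_congr rfl fun w _ => Finset.sum_comm, Finset.sum_comm]
      _ = _ := by
          apply Finset.sum_congr rfl
          intro i _
          apply Finset.sum_congr rfl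
          intro j _
          rw [Finset.sum_comm]
          apply Finset.sum_congr rfl
          intro u _
          apply Finset.sum_congr rfl
          intro w _
          ring
  exact_mod_cast h

/-- The average over `i` of the functions `∑_u a_i(u) conj(a_i(w)) x(u)` is close to `x`. -/
theorem finite_ineq [DecidableEq α] (W : Finset α) (N : ℕ) (hN : 1 ≤ N) (a : ℕ → α → ℂ)
    (ha : ∀ i < N, ∀ w ∈ W, ‖a i w‖ = 1) (x : α → ℂ) (n : ℝ)
    (hx : ∀ w ∈ W, ‖x w‖ ≤ n) :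
    ∑ w ∈ W, ‖x w - ∑ i ∈ range N, ((1 / (N : ℝ) : ℝ) : ℂ) *
        ∑ u ∈ W, (starRingEnd ℂ) (a i w) * a i u * x u‖ ^ 2
      ≤ n ^ 2 * W.card / N ^ 2 * ((∑ i ∈ range N, ∑ j ∈ range N,
        ‖∑ w ∈ W, a i w * (starRingEnd ℂ) (a j w)‖ ^ 2) - W.card * N ^ 2) := by
  have hN0 : (0 : ℝ) < N := by exact_mod_cast hN
  set S : α → α → ℂ := fun w u => ∑ i ∈ range N, (starRingEnd ℂ) (a i w) * a i u with hS
  have hdiag : ∀ w ∈ W, S w w = N := by
    intro w hw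
    simp only [hS]
    rw [Finset.sum_congr rfl fun i hi => ?_, Finset.sum_const, card_range, nsmul_eq_mul, mul_one]
    rw [mul_comm, Complex.mul_conj, Complex.normSq_eq_norm_sq, ha i (mem_range.1 hi) w hw]
    simp
  have hrow : ∀ w ∈ W, ‖x w - ∑ i ∈ range N, ((1 / (N : ℝ) : ℝ) : ℂ) *
      ∑ u ∈ W, (starRingEnd ℂ) (a i w) * a i u * x u‖ ^ 2
      ≤ n ^ 2 * W.card / N ^ 2 * ∑ u ∈ W.erase w, ‖S w u‖ ^ 2 := by
    intro w hw
    have e1 : ∑ i ∈ range N, ((1 / (N : ℝ) : ℝ) : ℂ) *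
        ∑ u ∈ W, (starRingEnd ℂ) (a i w) * a i u * x u
        = ((1 / (N : ℝ) : ℝ) : ℂ) * ∑ u ∈ W, S w u * x u := by
      rw [← Finset.mul_sum, Finset.sum_comm]
      simp only [hS, Finset.sum_mul]
    have e2 : x w - ((1 / (N : ℝ) : ℝ) : ℂ) * ∑ u ∈ W, S w u * x u
        = -(((1 / (N : ℝ) : ℝ) : ℂ) * ∑ u ∈ W.erase w, S w u * x u) := by
      rw [← Finset.add_sum_erase W _ hw, hdiag w hw]
      have : (N : ℂ) ≠ 0 := by exact_mod_cast hN0.ne'
      push_cast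
      field_simp
      ring
    rw [e1, e2, norm_neg, norm_mul, Complex.norm_real, Real.norm_of_nonneg (by positivity),
      mul_pow]
    have e3 : ‖∑ u ∈ W.erase w, S w u * x u‖ ^ 2 ≤ n ^ 2 * W.card * ∑ u ∈ W.erase w, ‖S w u‖ ^ 2 := by
      have e4 : ‖∑ u ∈ W.erase w, S w u * x u‖ ≤ ∑ u ∈ W.erase w, ‖S w u‖ * n := by
        apply norm_sum_le_of_le
        intro u hu
        rw [norm_mul]
        exact mul_le_mul_of_nonneg_left (hx u (Finset.mem_of_mem_erase hu)) (norm_nonneg _)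
      calc ‖∑ u ∈ W.erase w, S w u * x u‖ ^ 2 ≤ (∑ u ∈ W.erase w, ‖S w u‖ * n) ^ 2 :=
            pow_le_pow_left₀ (norm_nonneg _) e4 2
        _ ≤ (W.erase w).card * ∑ u ∈ W.erase w, (‖S w u‖ * n) ^ 2 := sq_sum_le_card_mul_sum_sq
        _ ≤ W.card * ∑ u ∈ W.erase w, (‖S w u‖ * n) ^ 2 := by
            apply mul_le_mul_of_nonneg_right _ (Finset.sum_nonneg fun u _ => by positivity)
            exact_mod_cast Finset.card_le_card (Finset.erase_subset _ _)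
        _ = n ^ 2 * W.card * ∑ u ∈ W.erase w, ‖S w u‖ ^ 2 := by
            rw [Finset.mul_sum, Finset.mul_sum]
            apply Finset.sum_congr rfl
            intro u _
            ring
    calc (1 / (N : ℝ)) ^ 2 * ‖∑ u ∈ W.erase w, S w u * x u‖ ^ 2
        ≤ (1 / (N : ℝ)) ^ 2 * (n ^ 2 * W.card * ∑ u ∈ W.erase w, ‖S w u‖ ^ 2) :=
          mul_le_mul_of_nonneg_left e3 (by positivity)
      _ = _ := by field_simp
  have htot : ∑ w ∈ W, ∑ u ∈ W.erase w, ‖S w u‖ ^ 2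
      = (∑ i ∈ range N, ∑ j ∈ range N, ‖∑ w ∈ W, a i w * (starRingEnd ℂ) (a j w)‖ ^ 2)
        - W.card * N ^ 2 := by
    rw [← sum_sq_pairs W N a]
    have e5 : ∀ w ∈ W, ∑ u ∈ W.erase w, ‖S w u‖ ^ 2 = ∑ u ∈ W, ‖S w u‖ ^ 2 - (N : ℝ) ^ 2 := by
      intro w hw
      rw [← Finset.add_sum_erase W _ hw, hdiag w hw]
      simp
    rw [Finset.sum_congr rfl e5, Finset.sum_sub_distrib, Finset.sum_const, nsmul_eq_mul]
  calc _ ≤ ∑ w ∈ W, n ^ 2 * W.card / N ^ 2 * ∑ u ∈ W.erase w, ‖S w u‖ ^ 2 :=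
        Finset.sum_le_sum hrow
    _ = _ := by rw [← Finset.mul_sum, htot]

end Pool.H81.FX
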