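import Mathlib
import Pool.Agent.H81.FX.FinExt
import Pool.Agent.H23.Base.Comb

/-!
Mean values over the places of `K` and of `K'`.
-/

namespace Pool.H81.FX

open Pool.H73.Func Pool.H23.Stab Pool.H23.Base Filter Topology

variable {A A' : RamSide} (E : FinExt A A')

/-- The places of degree one above `v`. -/
def W (v : A.Place) : Finset A'.Place := (E.above v).filter fun w => E.res w = 1

theorem mem_W (v : A.Place) (w : A'.Place) : w ∈ W E v ↔ E.below w = v ∧ E.res w = 1 := by
  rw [W, Finset.mem_filter, E.mem_above]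

theorem card_above (v : A.Place) : (E.above v).card ≤ E.degree := by
  refine le_trans ?_ (E.sum_res v)
  rw [Finset.card_eq_sum_ones]
  exact Finset.sum_le_sum fun w _ => E.res_pos w

theorem card_W (v : A.Place) : (W E v).card ≤ E.degree :=
  (Finset.card_le_card (Finset.filter_subset _ _)).trans (card_above E v)

theorem hasSum_fiber {g : A'.Place → ℝ} (hg : Summable g) :
    HasSum (fun v => ∑ w ∈ E.above v, g w) (∑' w, g w) := by
  have h1 : HasSum (g ∘ (Equiv.sigmaFiberEquiv E.below)) (∑' w, g w) :=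
    (Equiv.sigmaFiberEquiv E.below).hasSum_iff.2 hg.hasSum
  refine h1.sigma fun v => ?_
  have e : (fun c : {w // E.below w = v} => (g ∘ (Equiv.sigmaFiberEquiv E.below)) ⟨v, c⟩)
      = fun c : {w // E.below w = v} => g c := by
    funext c
    rfl
  rw [e]
  have h2 : HasSum (fun c : {w // w ∈ E.above v} => g c) (∑ w ∈ E.above v, g w) :=
    (E.above v).hasSum g
  let f : {w // E.below w = v} ≃ {w // w ∈ E.above v} :=
    Equiv.subtypeEquivRight fun w => (E.mem_above v w).symm
  exact (f.hasSum_iff (f := fun c : {w // w ∈ E.above v} => g c)).2 h2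

/-- The quotient of the zeta functions. -/
noncomputable def rho (A A' : RamSide) (s : ℝ) : ℝ :=
  (∑' w, A'.nm w ^ (-s)) / ∑' v, A.nm v ^ (-s)

theorem rho_pos {s : ℝ} (hs : 1 < s) : 0 < rho A A' s := div_pos (Z_pos A' hs) (Z_pos A hs)

theorem mean_push {s : ℝ} (hs : 1 < s) (f : A'.Place → ℝ) (K : ℝ) (hK : ∀ w, |f w| ≤ K) :
    mean A.toGLSide s (fun v => ∑ w ∈ W E v, f w)
      = rho A A' s * mean A'.toGLSide s (fun w => if E.res w = 1 then f w else 0) := by
  have hK' : ∀ w, |if E.res w = 1 then f w else 0| ≤ K := by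
    intro w
    split_ifs
    · exact hK w
    · rw [abs_zero]; exact (abs_nonneg _).trans (hK w)
  have h1 := hasSum_fiber E (summable_mul A' hs _ K hK')
  have e : (fun v => ∑ w ∈ E.above v, A'.nm w ^ (-s) * (if E.res w = 1 then f w else 0))
      = fun v => A.nm v ^ (-s) * ∑ w ∈ W E v, f w := by
    funext v
    rw [W, Finset.sum_filter, Finset.mul_sum]
    apply Finset.sum_congr rfl
    intro w hw
    split_ifs with h
    · rw [E.nm_below, h, pow_one, (E.mem_above v w).1 hw]
    · simp
  rw [e] at h1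
  unfold mean rho
  rw [h1.tsum_eq]
  have := (Z_pos A' hs).ne'
  have := (Z_pos A hs).ne'
  field_simp

/-- The places of degree at least two are negligible. -/
theorem mean_res : Tendsto (fun s => mean A'.toGLSide s ({w | E.res w ≠ 1}.indicator 1))
    (𝓝[>] 1) (𝓝 0) := by
  classical
  set C : ℝ := ∑' v, (E.degree : ℝ) * A.nm v ^ (-(2 : ℝ)) with hC
  have hsum : Summable fun v => (E.degree : ℝ) * A.nm v ^ (-(2 : ℝ)) :=
    (A.summable_nm 2 (by norm_num)).mul_left _
  have h2 : Tendsto (fun s : ℝ => C / ∑' v, A'.nm v ^ (-s)) (𝓝[>] 1) (𝓝 0) :=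
    Tendsto.div_atTop tendsto_const_nhds A'.diverges
  apply tendsto_of_tendsto_of_tendsto_of_le_of_le' tendsto_const_nhds h2
  · filter_upwards [self_mem_nhdsWithin] with s hs
    exact mean_nonneg A' hs _ fun v => Set.indicator_nonneg (fun _ _ => zero_le_one) v
  · filter_upwards [self_mem_nhdsWithin] with s hs
    have hs' : (1 : ℝ) < s := hs
    unfold mean
    apply div_le_div_of_nonneg_right _ (Z_pos A' hs').le
    have h3 := hasSum_fiber E (summable_mul A' hs' ({w | E.res w ≠ 1}.indicator 1) 1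
      (indicator_abs_le A' _))
    rw [← h3.tsum_eq, hC]
    apply Summable.tsum_le_tsum _ h3.summable hsum
    intro v
    calc ∑ w ∈ E.above v, A'.nm w ^ (-s) * {w | E.res w ≠ 1}.indicator 1 w
        ≤ ∑ w ∈ E.above v, A.nm v ^ (-(2 : ℝ)) := by
          apply Finset.sum_le_sum
          intro w hw
          by_cases h : E.res w = 1
          · rw [Set.indicator_of_notMem (by simpa using h), mul_zero]
            exact (Real.rpow_pos_of_pos (nm_pos A v) _).le
          · rw [Set.indicator_of_mem (by simpa using h), Pi.one_apply, mul_one, E.nm_below,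
              (E.mem_above v w).1 hw, ← Real.rpow_natCast, ← Real.rpow_mul (nm_pos A v).le]
            apply Real.rpow_le_rpow_of_exponent_le (A.one_lt_nm v).le
            have h4 : (2 : ℝ) ≤ E.res w := by
              have := E.res_pos w
              exact_mod_cast (show 2 ≤ E.res w by omega)
            nlinarith
      _ = (E.above v).card * A.nm v ^ (-(2 : ℝ)) := by rw [Finset.sum_const, nsmul_eq_mul]
      _ ≤ E.degree * A.nm v ^ (-(2 : ℝ)) := by
          apply mul_le_mul_of_nonneg_right _ (Real.rpow_pos_of_pos (nm_pos A v) _).le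
          exact_mod_cast card_above E v

/-- Negligible sets of places do not matter. -/
theorem small_congr {A : RamSide} {f g : A.Place → ℂ} {c : ℝ} (h : Small A f c) (K : ℝ)
    (hg : ∀ w, ‖g w‖ ≤ K) (X : Set A.Place)
    (hX : Tendsto (fun s => mean A.toGLSide s (X.indicator 1)) (𝓝[>] 1) (𝓝 0))
    (hfg : ∀ w, w ∉ X → g w = f w) : Small A g c := by
  obtain ⟨L, hL⟩ := h.1
  refine ⟨⟨K, hg⟩, fun ε hε => ?_⟩
  have hlim := hX.const_mul (K ^ 2)
  rw [mul_zero] at hlim
  filter_upwards [h.2 (ε / 2) (by linarith), hlim.eventually (gt_mem_nhds (half_pos hε)),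
    self_mem_nhdsWithin] with s h1 h2 hs
  have hs' : (1 : ℝ) < s := hs
  have e1 : mean A.toGLSide s (fun w => ‖g w‖ ^ 2)
      ≤ mean A.toGLSide s (fun w => ‖f w‖ ^ 2 + K ^ 2 * X.indicator 1 w) := by
    apply mean_mono A hs' _ _ (K ^ 2) (L ^ 2 + K ^ 2) (sq_abs_le hg)
    · intro v
      have h3 := sq_abs_le hL v
      have h4 := indicator_abs_le A X v
      refine (abs_add_le _ _).trans (add_le_add h3 ?_)
      rw [abs_mul, abs_of_nonneg (by positivity : (0 : ℝ) ≤ K ^ 2)]
      exact (mul_le_mul_of_nonneg_left h4 (by positivity)).trans (by rw [mul_one])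
    · intro v
      by_cases hv : v ∈ X
      · rw [Set.indicator_of_mem hv, Pi.one_apply, mul_one]
        have h3 := sq_abs_le hg v
        rw [abs_of_nonneg (by positivity)] at h3
        nlinarith [sq_nonneg ‖f v‖]
      · rw [Set.indicator_of_notMem hv, mul_zero, add_zero, hfg v hv]
  rw [mean_add A hs' (fun w => ‖f w‖ ^ 2) (fun w => K ^ 2 * X.indicator 1 w) (L ^ 2) (K ^ 2)
    (sq_abs_le hL), mean_mul] at e1
  · linarith
  · intro v
    rw [abs_mul, abs_of_nonneg (by positivity : (0 : ℝ) ≤ K ^ 2)]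
    exact (mul_le_mul_of_nonneg_left (indicator_abs_le A X v) (by positivity)).trans
      (by rw [mul_one])

theorem mean_union {A : RamSide} (X Y : Set A.Place)
    (hX : Tendsto (fun s => mean A.toGLSide s (X.indicator 1)) (𝓝[>] 1) (𝓝 0))
    (hY : Tendsto (fun s => mean A.toGLSide s (Y.indicator 1)) (𝓝[>] 1) (𝓝 0)) :
    Tendsto (fun s => mean A.toGLSide s ((X ∪ Y).indicator 1)) (𝓝[>] 1) (𝓝 0) := by
  have h := hX.add hY
  rw [add_zero] at h
  apply tendsto_of_tendsto_of_tendsto_of_le_of_le' tendsto_const_nhds h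
  · filter_upwards [self_mem_nhdsWithin] with s hs
    exact mean_nonneg A hs _ fun v => Set.indicator_nonneg (fun _ _ => zero_le_one) v
  · filter_upwards [self_mem_nhdsWithin] with s hs
    have hs' : (1 : ℝ) < s := hs
    have e := mean_add A hs' (X.indicator 1) (Y.indicator 1) 1 1 (indicator_abs_le A X)
      (indicator_abs_le A Y)
    rw [← e]
    apply mean_mono A hs' _ _ 1 2 (indicator_abs_le A _)
    · intro v
      exact (abs_add_le _ _).trans ((add_le_add (indicator_abs_le A X v)
        (indicator_abs_le A Y v)).trans (by norm_num))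
    · intro v
      have h0 : ∀ Z : Set A.Place, 0 ≤ Z.indicator (1 : A.Place → ℝ) v := fun Z =>
        Set.indicator_nonneg (fun _ _ => zero_le_one) v
      by_cases hv : v ∈ X ∪ Y
      · rw [Set.indicator_of_mem hv]
        rcases hv with hv | hv
        · rw [Set.indicator_of_mem hv]; have := h0 Y; simp only [Pi.one_apply] at *; linarith
        · rw [Set.indicator_of_mem (s := Y) hv]; have := h0 X; simp only [Pi.one_apply] at *; linarith
      · rw [Set.indicator_of_notMem hv]; linarith [h0 X, h0 Y]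

/-- The mean number of places of degree one above `v` is `1`. -/
theorem mean_card : Tendsto (fun s => mean A.toGLSide s fun v => ((W E v).card : ℝ))
    (𝓝[>] 1) (𝓝 1) := by
  have h1 : Tendsto (fun s => rho A A' s * (1 - mean A'.toGLSide s
      ({w | E.res w ≠ 1}.indicator 1))) (𝓝[>] 1) (𝓝 (1 * (1 - 0))) :=
    E.ratio.mul (tendsto_const_nhds.sub (mean_res E))
  rw [sub_zero, mul_one] at h1
  apply h1.congr'
  filter_upwards [self_mem_nhdsWithin] with s hs
  have hs' : (1 : ℝ) < s := hs
  have e : (fun v => ((W E v).card : ℝ)) = fun v => ∑ w ∈ W E v, (1 : ℝ) := by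
    funext v
    rw [Finset.sum_const, nsmul_eq_mul, mul_one]
  rw [e, mean_push E hs' (fun _ => 1) 1 (fun _ => by simp)]
  congr 1
  have h2 := mean_add A' hs' (fun w => if E.res w = 1 then (1 : ℝ) else 0)
    ({w | E.res w ≠ 1}.indicator 1) 1 1 (fun w => by split_ifs <;> simp) (indicator_abs_le A' _)
  have e2 : (fun w => (if E.res w = 1 then (1 : ℝ) else 0) + {w | E.res w ≠ 1}.indicator 1 w)
      = fun _ => 1 := by
    funext w
    by_cases h : E.res w = 1
    · rw [if_pos h, Set.indicator_of_notMem (by simpa using h), add_zero]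
    · rw [if_neg h, Set.indicator_of_mem (by simpa using h)]; simp
  rw [e2, mean_one A' hs'] at h2
  linarith

/-- The trace from `K'` to `K` of a function which is small. -/
theorem small_push {g : A'.Place → ℂ} (hg : Small A' g 0) (u : A'.Place → ℂ)
    (hu : ∀ w, ‖u w‖ ≤ 1) : Small A (fun v => ∑ w ∈ W E v, u w * g w) 0 := by
  obtain ⟨K, hK⟩ := hg.1
  have hb : ∀ v, ‖∑ w ∈ W E v, u w * g w‖ ≤ E.degree * K := by
    intro v
    calc ‖∑ w ∈ W E v, u w * g w‖ ≤ ∑ w ∈ W E v, K := by
          apply norm_sum_le_of_le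
          intro w _
          rw [norm_mul]
          calc ‖u w‖ * ‖g w‖ ≤ 1 * K :=
                mul_le_mul (hu w) (hK w) (norm_nonneg _) zero_le_one
            _ = K := one_mul K
      _ = (W E v).card * K := by rw [Finset.sum_const, nsmul_eq_mul]
      _ ≤ E.degree * K := by
          by_cases h : (W E v).Nonempty
          · obtain ⟨w, _⟩ := h
            have h0 : 0 ≤ K := (norm_nonneg _).trans (hK w)
            apply mul_le_mul_of_nonneg_right _ h0
            exact_mod_cast card_W E v
          · rw [Finset.not_nonempty_iff_eq_empty] at h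
            rw [h, Finset.card_empty, Nat.cast_zero, zero_mul]
            have := A'.inf
            obtain ⟨w⟩ := (inferInstance : Nonempty A'.Place)
            exact mul_nonneg (Nat.cast_nonneg _) ((norm_nonneg _).trans (hK w))
  refine ⟨⟨_, hb⟩, fun ε hε => ?_⟩
  have hε' : 0 < ε / (2 * ((E.degree : ℝ) + 1)) := by positivity
  have hr := E.ratio.eventually (gt_mem_nhds (show (1 : ℝ) < 2 by norm_num))
  filter_upwards [hg.2 _ hε', hr, self_mem_nhdsWithin] with s h1 h2 hs
  have hs' : (1 : ℝ) < s := hs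
  have h3 : mean A.toGLSide s (fun v => ‖∑ w ∈ W E v, u w * g w‖ ^ 2)
      ≤ mean A.toGLSide s (fun v => E.degree * ∑ w ∈ W E v, ‖g w‖ ^ 2) := by
    apply mean_mono A hs' _ _ ((E.degree * K) ^ 2) (E.degree * (E.degree * K ^ 2)) (sq_abs_le hb)
    · intro v
      rw [abs_of_nonneg (by positivity)]
      apply mul_le_mul_of_nonneg_left _ (Nat.cast_nonneg _)
      calc ∑ w ∈ W E v, ‖g w‖ ^ 2 ≤ ∑ w ∈ W E v, K ^ 2 := by
            apply Finset.sum_le_sum
            intro w _
            exact pow_le_pow_left₀ (norm_nonneg _) (hK w) 2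
        _ = (W E v).card * K ^ 2 := by rw [Finset.sum_const, nsmul_eq_mul]
        _ ≤ E.degree * K ^ 2 := by
            apply mul_le_mul_of_nonneg_right _ (by positivity)
            exact_mod_cast card_W E v
    · intro v
      have h4 : ‖∑ w ∈ W E v, u w * g w‖ ≤ ∑ w ∈ W E v, ‖g w‖ := by
        apply norm_sum_le_of_le
        intro w _
        rw [norm_mul]
        calc ‖u w‖ * ‖g w‖ ≤ 1 * ‖g w‖ := mul_le_mul_of_nonneg_right (hu w) (norm_nonneg _)
          _ = ‖g w‖ := one_mul _
      calc ‖∑ w ∈ W E v, u w * g w‖ ^ 2 ≤ (∑ w ∈ W E v, ‖g w‖) ^ 2 :=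
            pow_le_pow_left₀ (norm_nonneg _) h4 2
        _ ≤ (W E v).card * ∑ w ∈ W E v, ‖g w‖ ^ 2 := sq_sum_le_card_mul_sum_sq
        _ ≤ E.degree * ∑ w ∈ W E v, ‖g w‖ ^ 2 := by
            apply mul_le_mul_of_nonneg_right _ (Finset.sum_nonneg fun w _ => by positivity)
            exact_mod_cast card_W E v
  rw [mean_mul, mean_push E hs' (fun w => ‖g w‖ ^ 2) (K ^ 2) (sq_abs_le hK)] at h3
  have h5 : mean A'.toGLSide s (fun w => if E.res w = 1 then ‖g w‖ ^ 2 else 0)
      ≤ mean A'.toGLSide s (fun w => ‖g w‖ ^ 2) := by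
    apply mean_mono A' hs' _ _ (K ^ 2) (K ^ 2) _ (sq_abs_le hK)
    · intro w
      split_ifs
      · exact le_rfl
      · positivity
    · intro w
      split_ifs
      · exact sq_abs_le hK w
      · rw [abs_zero]; positivity
  have h6 : rho A A' s < 2 := h2
  have h7 : 0 < rho A A' s := rho_pos hs'
  have h8 : mean A'.toGLSide s (fun w => if E.res w = 1 then ‖g w‖ ^ 2 else 0)
      ≤ ε / (2 * ((E.degree : ℝ) + 1)) := by linarith
  have h9 : rho A A' s * mean A'.toGLSide s (fun w => if E.res w = 1 then ‖g w‖ ^ 2 else 0)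
      ≤ 2 * (ε / (2 * ((E.degree : ℝ) + 1))) := by
    calc _ ≤ rho A A' s * (ε / (2 * ((E.degree : ℝ) + 1))) :=
          mul_le_mul_of_nonneg_left h8 h7.le
      _ ≤ _ := mul_le_mul_of_nonneg_right h6.le hε'.le
  have h10 : (E.degree : ℝ) * (2 * (ε / (2 * ((E.degree : ℝ) + 1)))) ≤ ε := by
    have h11 : 2 * (ε / (2 * ((E.degree : ℝ) + 1))) = ε / ((E.degree : ℝ) + 1) := by
      field_simp
    rw [h11, mul_div_assoc', div_le_iff₀ (by positivity)]
    nlinarith
  have h12 := mul_le_mul_of_nonneg_left h9 (Nat.cast_nonneg E.degree : (0 : ℝ) ≤ E.degree)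
  linarith

end Pool.H81.FX
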