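import Mathlib
import Pool.Agent.H81.FX.Transfer
import Pool.Agent.H81.FX.Fin

/-!
The average of the twisted base changes.
-/

namespace Pool.H81.FX

open Pool.H73.Func Pool.H23.Stab Pool.H23.Base Filter Topology

variable {A A' : RamSide} (E : FinExt A A')

/-- The good places of `K` for the set `V` and the character `χ`. -/
def VV (V : Set A.Place) (χ : E.Chr) : Set A.Place := {v | v ∈ V ∧ ∀ w ∈ E.above v, w ∈ E.cunr χ}

theorem VV_cofinite (V : Set A.Place) (hV : Vᶜ.Finite) (χ : E.Chr) : (VV E V χ)ᶜ.Finite := by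
  have h : (VV E V χ)ᶜ ⊆ Vᶜ ∪ E.below '' (E.cunr χ)ᶜ := by
    intro v hv
    by_cases h1 : v ∈ V
    · right
      have h2 : ∃ w ∈ E.above v, w ∉ E.cunr χ := by
        by_contra hn
        push Not at hn
        exact hv ⟨h1, hn⟩
      obtain ⟨w, hw, h3⟩ := h2
      exact ⟨w, h3, (E.mem_above v w).1 hw⟩
    · exact Or.inl h1
  exact (hV.union ((E.cunr_cofinite χ).image _)).subset h

/-- The matrix of the values of the characters. -/
noncomputable def ss (χ ψ : E.Chr) (v : A.Place) : ℂ :=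
  ∑ w ∈ W E v, (E.cunr (χ * ψ⁻¹)).indicator (E.val (χ * ψ⁻¹)) w

theorem norm_ss_le (χ ψ : E.Chr) (v : A.Place) : ‖ss E χ ψ v‖ ≤ E.degree := by
  calc ‖ss E χ ψ v‖ ≤ ∑ w ∈ W E v, (1 : ℝ) := by
        apply norm_sum_le_of_le
        intro w _
        by_cases h : w ∈ E.cunr (χ * ψ⁻¹)
        · rw [Set.indicator_of_mem h, E.norm_val _ _ h]
        · rw [Set.indicator_of_notMem h, norm_zero]; exact zero_le_one
    _ = (W E v).card := by rw [Finset.sum_const, nsmul_eq_mul, mul_one]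
    _ ≤ E.degree := by exact_mod_cast card_W E v

theorem val_inv (χ : E.Chr) (w : A'.Place) (hw : w ∈ E.cunr χ) :
    E.val χ⁻¹ w = (starRingEnd ℂ) (E.val χ w) := by
  have h1 : E.val χ w * E.val χ⁻¹ w = 1 := by
    rw [← E.val_mul χ χ⁻¹ w ⟨hw, by rw [E.cunr_inv]; exact hw⟩, mul_inv_cancel, E.val_one]
  have h2 : E.val χ w * (starRingEnd ℂ) (E.val χ w) = 1 := by
    rw [Complex.mul_conj, Complex.normSq_eq_norm_sq, E.norm_val χ w hw]; simp
  have h3 : E.val χ w ≠ 0 := by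
    intro h; rw [h, zero_mul] at h1; exact zero_ne_one h1
  exact mul_left_cancel₀ h3 (h1.trans h2.symm)

theorem ss_eq (χ ψ : E.Chr) (v : A.Place) (h : ∀ w ∈ E.above v, w ∈ E.cunr χ)
    (h' : ∀ w ∈ E.above v, w ∈ E.cunr ψ) :
    ss E χ ψ v = ∑ w ∈ W E v, E.val χ w * (starRingEnd ℂ) (E.val ψ w) := by
  unfold ss
  apply Finset.sum_congr rfl
  intro w hw
  have hw' : w ∈ E.above v := Finset.mem_of_mem_filter w hw
  have h1 : w ∈ E.cunr χ ∩ E.cunr ψ⁻¹ := ⟨h w hw', by rw [E.cunr_inv]; exact h' w hw'⟩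
  rw [Set.indicator_of_mem (E.cunr_mul χ ψ⁻¹ h1), E.val_mul χ ψ⁻¹ w h1,
    val_inv E ψ w (h' w hw')]

/-- The trace of the family `X` (and `0` outside the good places). -/
noncomputable def xx (V : Set A.Place) (X : A'.Place → Multiset ℂ) (w : A'.Place) : ℂ :=
  (E.below ⁻¹' V).indicator (fun w => (X w).sum) w

theorem norm_xx_le {V : Set A.Place} {X : A'.Place → Multiset ℂ} {n : ℕ}
    (hX : ∀ w, E.below w ∈ V → (X w).card ≤ n)
    (hX1 : ∀ w, E.below w ∈ V → ∀ a ∈ X w, ‖a‖ = 1) (w : A'.Place) : ‖xx E V X w‖ ≤ n := by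
  unfold xx
  by_cases hw : E.below w ∈ V
  · rw [Set.indicator_of_mem (by exact hw)]
    refine (norm_msum_le _ fun a ha => (hX1 w hw a ha).le).trans ?_
    exact_mod_cast hX w hw
  · rw [Set.indicator_of_notMem (by exact hw), norm_zero]
    exact Nat.cast_nonneg _

/-- The bound for the quadratic mean of the first error. -/
noncomputable def hh (N : ℕ) (n : ℕ) (χ : ℕ → E.Chr) (v : A.Place) : ℝ :=
  (n : ℝ) ^ 2 * E.degree / N ^ 2 * (N * (E.degree : ℝ) ^ 2 +
    ∑ p ∈ (Finset.range N ×ˢ Finset.range N).filter (fun p => p.1 ≠ p.2),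
      (‖ss E (χ p.1) (χ p.2) v‖ ^ 2 - (W E v).card))

theorem hh_abs_le (N n : ℕ) (χ : ℕ → E.Chr) : ∃ K : ℝ, ∀ v, |hh E N n χ v| ≤ K := by
  classical
  refine ⟨|(n : ℝ) ^ 2 * E.degree / N ^ 2| * (|(N : ℝ) * (E.degree : ℝ) ^ 2| +
    ∑ p ∈ (Finset.range N ×ˢ Finset.range N).filter (fun p => p.1 ≠ p.2),
      ((E.degree : ℝ) ^ 2 + E.degree)), fun v => ?_⟩
  unfold hh
  rw [abs_mul]
  apply mul_le_mul_of_nonneg_left _ (abs_nonneg _)
  refine (abs_add_le _ _).trans (add_le_add le_rfl ?_)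
  refine (Finset.abs_sum_le_sum_abs _ _).trans (Finset.sum_le_sum fun p _ => ?_)
  have h1 : |‖ss E (χ p.1) (χ p.2) v‖ ^ 2| ≤ (E.degree : ℝ) ^ 2 := by
    rw [abs_of_nonneg (by positivity)]
    exact pow_le_pow_left₀ (norm_nonneg _) (norm_ss_le E _ _ v) 2
  have h2 : |((W E v).card : ℝ)| ≤ E.degree := by
    rw [abs_of_nonneg (by positivity)]
    exact_mod_cast card_W E v
  have h3 := abs_sub (‖ss E (χ p.1) (χ p.2) v‖ ^ 2) ((W E v).card : ℝ)
  linarith

theorem hh_mean (N n : ℕ) (hN : 1 ≤ N) (χ : ℕ → E.Chr)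
    (hχ : ∀ i j, i ≠ j → Tendsto (fun s : ℝ => mean A.toGLSide s fun v =>
      ‖ss E (χ i) (χ j) v‖ ^ 2) (𝓝[>] 1) (𝓝 1)) :
    Tendsto (fun s => mean A.toGLSide s (hh E N n χ)) (𝓝[>] 1)
      (𝓝 ((n : ℝ) ^ 2 * (E.degree : ℝ) ^ 3 / N)) := by
  classical
  have hN0 : (N : ℝ) ≠ 0 := by positivity
  set S := (Finset.range N ×ˢ Finset.range N).filter (fun p => p.1 ≠ p.2) with hS
  have h1 : Tendsto (fun s => (n : ℝ) ^ 2 * E.degree / N ^ 2 * (N * (E.degree : ℝ) ^ 2 +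
      ∑ p ∈ S, (mean A.toGLSide s (fun v => ‖ss E (χ p.1) (χ p.2) v‖ ^ 2)
        - mean A.toGLSide s (fun v => ((W E v).card : ℝ))))) (𝓝[>] 1)
      (𝓝 ((n : ℝ) ^ 2 * E.degree / N ^ 2 * (N * (E.degree : ℝ) ^ 2 + ∑ p ∈ S, (1 - 1)))) := by
    apply Tendsto.const_mul
    apply Tendsto.const_add
    apply tendsto_finsetSum
    intro p hp
    exact (hχ p.1 p.2 (Finset.mem_filter.1 hp).2).sub (mean_card E)
  have e1 : (n : ℝ) ^ 2 * E.degree / N ^ 2 * (N * (E.degree : ℝ) ^ 2 + ∑ p ∈ S, (1 - 1))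
      = (n : ℝ) ^ 2 * (E.degree : ℝ) ^ 3 / N := by
    rw [sub_self, Finset.sum_const_zero, add_zero]
    field_simp
  rw [e1] at h1
  apply h1.congr'
  filter_upwards [self_mem_nhdsWithin] with s hs
  have hs' : (1 : ℝ) < s := hs
  have hb1 : ∀ (p : ℕ × ℕ) v, |‖ss E (χ p.1) (χ p.2) v‖ ^ 2| ≤ (E.degree : ℝ) ^ 2 := by
    intro p v
    rw [abs_of_nonneg (by positivity)]
    exact pow_le_pow_left₀ (norm_nonneg _) (norm_ss_le E _ _ v) 2
  have hb2 : ∀ v, |((W E v).card : ℝ)| ≤ E.degree := by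
    intro v
    rw [abs_of_nonneg (by positivity)]
    exact_mod_cast card_W E v
  have hb3 : ∀ (p : ℕ × ℕ) v, |‖ss E (χ p.1) (χ p.2) v‖ ^ 2 - (W E v).card|
      ≤ (E.degree : ℝ) ^ 2 + E.degree := by
    intro p v
    have h3 := abs_sub (‖ss E (χ p.1) (χ p.2) v‖ ^ 2) ((W E v).card : ℝ)
    linarith [hb1 p v, hb2 v]
  have e2 : ∀ p : ℕ × ℕ, mean A.toGLSide s (fun v => ‖ss E (χ p.1) (χ p.2) v‖ ^ 2 - (W E v).card)
      = mean A.toGLSide s (fun v => ‖ss E (χ p.1) (χ p.2) v‖ ^ 2)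
        - mean A.toGLSide s (fun v => ((W E v).card : ℝ)) := by
    intro p
    have h4 := mean_add A hs' (fun v => ‖ss E (χ p.1) (χ p.2) v‖ ^ 2)
      (fun v => -1 * ((W E v).card : ℝ)) _ _ (hb1 p) (fun v => by
        rw [abs_mul, abs_neg, abs_one, one_mul]; exact hb2 v)
    rw [mean_mul] at h4
    rw [show (fun v => ‖ss E (χ p.1) (χ p.2) v‖ ^ 2 - ((W E v).card : ℝ))
      = fun v => ‖ss E (χ p.1) (χ p.2) v‖ ^ 2 + -1 * ((W E v).card : ℝ) by funext v; ring, h4]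
    ring
  unfold hh
  rw [mean_mul, mean_add A hs' (fun _ => (N : ℝ) * (E.degree : ℝ) ^ 2) _
    (|(N : ℝ) * (E.degree : ℝ) ^ 2|) (S.card * ((E.degree : ℝ) ^ 2 + E.degree))
    (fun _ => le_rfl) _, mean_const A hs',
    mean_sum A hs' S (fun p v => ‖ss E (χ p.1) (χ p.2) v‖ ^ 2 - (W E v).card) _
      (fun p _ v => hb3 p v)]
  · simp only [e2]
  · intro v
    refine (Finset.abs_sum_le_sum_abs _ _).trans ?_
    calc ∑ p ∈ S, |‖ss E (χ p.1) (χ p.2) v‖ ^ 2 - (W E v).card|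
        ≤ ∑ p ∈ S, ((E.degree : ℝ) ^ 2 + E.degree) := Finset.sum_le_sum fun p _ => hb3 p v
      _ = _ := by rw [Finset.sum_const, nsmul_eq_mul]

/-- The pointwise inequality. -/
theorem point_ineq {V : Set A.Place} {X : A'.Place → Multiset ℂ} {n : ℕ}
    (hX : ∀ w, E.below w ∈ V → (X w).card ≤ n)
    (hX1 : ∀ w, E.below w ∈ V → ∀ a ∈ X w, ‖a‖ = 1) (χ : ℕ → E.Chr) (N : ℕ) (hN : 1 ≤ N)
    (v : A.Place) (hv : ∀ i < N, v ∈ VV E V (χ i)) :
    ∑ w ∈ W E v, ‖xx E V X w - ∑ i ∈ Finset.range N, ((1 / (N : ℝ) : ℝ) : ℂ) *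
        ∑ u ∈ W E v, (starRingEnd ℂ) (E.val (χ i) w) * E.val (χ i) u * xx E V X u‖ ^ 2
      ≤ hh E N n χ v := by
  classical
  have hN0 : (0 : ℝ) < N := by exact_mod_cast hN
  refine (finite_ineq (W E v) N hN (fun i w => E.val (χ i) w) ?_ (xx E V X) n
    (fun w _ => norm_xx_le E hX hX1 w)).trans ?_
  · intro i hi w hw
    exact E.norm_val _ _ ((hv i hi).2 w (Finset.mem_of_mem_filter w hw))
  · have e1 : ∀ i ∈ Finset.range N, ∀ j ∈ Finset.range N,
        ‖∑ w ∈ W E v, E.val (χ i) w * (starRingEnd ℂ) (E.val (χ j) w)‖ ^ 2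
        = ‖ss E (χ i) (χ j) v‖ ^ 2 := by
      intro i hi j hj
      rw [ss_eq E (χ i) (χ j) v (hv i (Finset.mem_range.1 hi)).2 (hv j (Finset.mem_range.1 hj)).2]
    have e2 : (∑ i ∈ Finset.range N, ∑ j ∈ Finset.range N,
        ‖∑ w ∈ W E v, E.val (χ i) w * (starRingEnd ℂ) (E.val (χ j) w)‖ ^ 2)
        - (W E v).card * N ^ 2
        = ∑ p ∈ Finset.range N ×ˢ Finset.range N, (‖ss E (χ p.1) (χ p.2) v‖ ^ 2 - (W E v).card) := by
      rw [Finset.sum_sub_distrib, Finset.sum_product, Finset.sum_const, Finset.card_product,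
        Finset.card_range, nsmul_eq_mul]
      rw [Finset.sum_congr rfl fun i hi => Finset.sum_congr rfl fun j hj => e1 i hi j hj]
      push_cast
      ring
    rw [e2, ← Finset.sum_filter_add_sum_filter_not _ (fun p => p.1 ≠ p.2)]
    have hd : ((W E v).card : ℝ) ≤ E.degree := by exact_mod_cast card_W E v
    have h3 : ∑ p ∈ (Finset.range N ×ˢ Finset.range N).filter (fun p => ¬ p.1 ≠ p.2),
        (‖ss E (χ p.1) (χ p.2) v‖ ^ 2 - (W E v).card) ≤ N * (E.degree : ℝ) ^ 2 := by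
      calc ∑ p ∈ (Finset.range N ×ˢ Finset.range N).filter (fun p => ¬ p.1 ≠ p.2),
            (‖ss E (χ p.1) (χ p.2) v‖ ^ 2 - (W E v).card)
          ≤ ∑ p ∈ (Finset.range N ×ˢ Finset.range N).filter (fun p => ¬ p.1 ≠ p.2),
            (E.degree : ℝ) ^ 2 := by
            apply Finset.sum_le_sum
            intro p _
            have := pow_le_pow_left₀ (norm_nonneg _) (norm_ss_le E (χ p.1) (χ p.2) v) 2
            have h0 : (0 : ℝ) ≤ (W E v).card := Nat.cast_nonneg _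
            linarith
        _ = N * (E.degree : ℝ) ^ 2 := by
            rw [Finset.sum_const, nsmul_eq_mul]
            congr 2
            rw [show (Finset.range N ×ˢ Finset.range N).filter (fun p : ℕ × ℕ => ¬ p.1 ≠ p.2)
              = (Finset.range N).image fun i => (i, i) by
                ext ⟨i, j⟩
                simp only [Finset.mem_filter, Finset.mem_product, Finset.mem_range, ne_eq,
                  not_not, Finset.mem_image, Prod.mk.injEq]
                constructor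
                · rintro ⟨⟨h, _⟩, rfl⟩
                  exact ⟨i, h, rfl, rfl⟩
                · rintro ⟨k, hk, rfl, rfl⟩
                  exact ⟨⟨hk, hk⟩, rfl⟩,
              Finset.card_image_of_injective _ (fun i j h => (Prod.mk.inj h).1),
              Finset.card_range]
    have hpos : 0 ≤ (∑ p ∈ (Finset.range N ×ˢ Finset.range N).filter (fun p => p.1 ≠ p.2),
        (‖ss E (χ p.1) (χ p.2) v‖ ^ 2 - (W E v).card)) +
        ∑ p ∈ (Finset.range N ×ˢ Finset.range N).filter (fun p => ¬ p.1 ≠ p.2),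
        (‖ss E (χ p.1) (χ p.2) v‖ ^ 2 - (W E v).card) := by
      rw [Finset.sum_filter_add_sum_filter_not, ← e2, ← sum_sq_pairs (W E v) N]
      have h5 : ∀ w ∈ W E v, (N : ℝ) ^ 2 ≤ ∑ u ∈ W E v,
          ‖∑ i ∈ Finset.range N, (starRingEnd ℂ) (E.val (χ i) w) * E.val (χ i) u‖ ^ 2 := by
        intro w hw
        have h6 : ‖∑ i ∈ Finset.range N, (starRingEnd ℂ) (E.val (χ i) w) * E.val (χ i) w‖ ^ 2
            = (N : ℝ) ^ 2 := by
          rw [Finset.sum_congr rfl fun i hi => ?_, Finset.sum_const, Finset.card_range,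
            nsmul_eq_mul, mul_one, Complex.norm_natCast]
          rw [mul_comm, Complex.mul_conj, Complex.normSq_eq_norm_sq,
            E.norm_val _ _ ((hv i (Finset.mem_range.1 hi)).2 w (Finset.mem_of_mem_filter w hw))]
          simp
        rw [← h6]
        exact Finset.single_le_sum (f := fun u =>
          ‖∑ i ∈ Finset.range N, (starRingEnd ℂ) (E.val (χ i) w) * E.val (χ i) u‖ ^ 2)
          (fun u _ => by positivity) hw
      have h7 := Finset.sum_le_sum h5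
      rw [Finset.sum_const, nsmul_eq_mul] at h7
      linarith
    unfold hh
    calc _ ≤ (n : ℝ) ^ 2 * E.degree / N ^ 2 *
          ((∑ p ∈ (Finset.range N ×ˢ Finset.range N).filter (fun p => p.1 ≠ p.2),
          (‖ss E (χ p.1) (χ p.2) v‖ ^ 2 - (W E v).card)) +
          ∑ p ∈ (Finset.range N ×ˢ Finset.range N).filter (fun p => ¬ p.1 ≠ p.2),
          (‖ss E (χ p.1) (χ p.2) v‖ ^ 2 - (W E v).card)) := by
          apply mul_le_mul_of_nonneg_right _ hpos
          apply div_le_div_of_nonneg_right _ (by positivity)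
          exact mul_le_mul_of_nonneg_left hd (by positivity)
      _ ≤ _ := by
          apply mul_le_mul_of_nonneg_left _ (by positivity)
          linarith

end Pool.H81.FX
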