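import Mathlib
import Pool.Agent.H81.FX.First

/-!
The quadratic mean of the first error.
-/

namespace Pool.H81.FX

open Pool.H73.Func Pool.H23.Stab Pool.H23.Base Filter Topology

variable {A A' : RamSide} (E : FinExt A A')

theorem above_fin (X : Set A.Place) (hX : X.Finite) : (E.below ⁻¹' X).Finite := by
  have h : E.below ⁻¹' X ⊆ ⋃ v ∈ X, (E.above v : Set A'.Place) := by
    intro w hw
    simp only [Set.mem_iUnion]
    exact ⟨E.below w, hw, Finset.mem_coe.2 ((E.mem_above _ _).2 rfl)⟩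
  exact (Set.Finite.biUnion hX fun v _ => (E.above v).finite_toSet).subset h

theorem small_first {V : Set A.Place} (hV : Vᶜ.Finite) {X : A'.Place → Multiset ℂ} {n : ℕ}
    (hX : ∀ w, E.below w ∈ V → (X w).card ≤ n)
    (hX1 : ∀ w, E.below w ∈ V → ∀ a ∈ X w, ‖a‖ = 1) (χ : ℕ → E.Chr)
    (hχ : ∀ i j, i ≠ j → Tendsto (fun s : ℝ => mean A.toGLSide s fun v =>
      ‖ss E (χ i) (χ j) v‖ ^ 2) (𝓝[>] 1) (𝓝 1)) (N : ℕ) (hN : 1 ≤ N)
    (Y : ℕ → Multiset A'.Cusp) (D : ℕ) (hY : ∀ i, ∀ σ ∈ Y i, A'.expo σ = 0)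
    (hYd : ∀ i, ((Y i).map A'.deg).sum ≤ D)
    (hYT : ∀ i w, E.res w = 1 → E.below w ∈ VV E V (χ i) → T A' (Y i) w =
      ∑ u ∈ W E (E.below w), (starRingEnd ℂ) (E.val (χ i) w) * E.val (χ i) u * xx E V X u) :
    Small A' (fun w => xx E V X w - ∑ i ∈ Finset.range N,
      ((1 / (N : ℝ) : ℝ) : ℂ) * T A' (Y i) w) ((n : ℝ) ^ 2 * (E.degree : ℝ) ^ 3 / N) := by
  classical
  have hN0 : (0 : ℝ) < N := by exact_mod_cast hN
  set f : A'.Place → ℂ := fun w => xx E V X w - ∑ i ∈ Finset.range N,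
      ((1 / (N : ℝ) : ℝ) : ℂ) * T A' (Y i) w with hf
  set K : ℝ := n + D with hK
  have hb : ∀ w, ‖f w‖ ≤ K := by
    intro w
    refine (norm_sub_le _ _).trans (add_le_add (norm_xx_le E hX hX1 w) ?_)
    calc ‖∑ i ∈ Finset.range N, ((1 / (N : ℝ) : ℝ) : ℂ) * T A' (Y i) w‖
        ≤ ∑ i ∈ Finset.range N, (1 / (N : ℝ) * D) := by
          apply norm_sum_le_of_le
          intro i _
          rw [norm_mul, Complex.norm_real, Real.norm_of_nonneg (by positivity)]
          apply mul_le_mul_of_nonneg_left _ (by positivity)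
          refine (norm_T_le A' _ (hY i) w).trans ?_
          exact_mod_cast hYd i
      _ = D := by
          rw [Finset.sum_const, Finset.card_range, nsmul_eq_mul]
          field_simp
  have hK0 : 0 ≤ K := by positivity
  set VN : Set A.Place := {v | ∀ i < N, v ∈ VV E V (χ i)} with hVN
  have hVNf : VNᶜ.Finite := by
    have h : VNᶜ ⊆ ⋃ i ∈ Finset.range N, (VV E V (χ i))ᶜ := by
      intro v hv
      have h1 : ∃ i < N, v ∉ VV E V (χ i) := by
        by_contra hn
        push Not at hn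
        exact hv hn
      obtain ⟨i, hi, h2⟩ := h1
      simp only [Set.mem_iUnion]
      exact ⟨i, Finset.mem_range.2 hi, h2⟩
    exact (Set.Finite.biUnion (Finset.finite_toSet _) fun i _ => VV_cofinite E V hV (χ i)).subset h
  obtain ⟨M, hM⟩ := hh_abs_le E N n χ
  have hM0 : 0 ≤ M := by
    have := A.inf
    obtain ⟨v⟩ := (inferInstance : Nonempty A.Place)
    exact (abs_nonneg _).trans (hM v)
  -- the pointwise inequality over `K`
  have hpt : ∀ v, ∑ w ∈ W E v, (if E.below w ∈ VN then ‖f w‖ ^ 2 else 0)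
      ≤ hh E N n χ v + M * VNᶜ.indicator 1 v := by
    intro v
    by_cases hv : v ∈ VN
    · rw [Set.indicator_of_notMem (by simpa using hv), mul_zero, add_zero]
      refine le_trans (le_of_eq ?_) (point_ineq E hX hX1 χ N hN v hv)
      apply Finset.sum_congr rfl
      intro w hw
      obtain ⟨h1, h2⟩ := (mem_W E v w).1 hw
      rw [if_pos (by rw [h1]; exact hv)]
      simp only [hf]
      rw [Finset.sum_congr rfl fun i hi => ?_]
      rw [hYT i w h2 (by rw [h1]; exact hv i (Finset.mem_range.1 hi)), h1]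
    · rw [Set.indicator_of_mem (by simpa using hv), Finset.sum_eq_zero]
      · have := (abs_le.1 (hM v)).1
        simp only [Pi.one_apply]
        linarith
      · intro w hw
        rw [if_neg (by rw [((mem_W E v w).1 hw).1]; exact hv)]
  refine ⟨⟨K, hb⟩, fun ε hε => ?_⟩
  have hlim : Tendsto (fun s => (rho A A' s)⁻¹ * (mean A.toGLSide s (hh E N n χ)
      + M * mean A.toGLSide s (VNᶜ.indicator 1))
      + K ^ 2 * (mean A'.toGLSide s ({w | E.res w ≠ 1}.indicator 1)
        + mean A'.toGLSide s ((E.below ⁻¹' VNᶜ).indicator 1))) (𝓝[>] 1)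
      (𝓝 ((1 : ℝ)⁻¹ * ((n : ℝ) ^ 2 * (E.degree : ℝ) ^ 3 / N + M * 0) + K ^ 2 * (0 + 0))) := by
    apply Tendsto.add
    · exact (E.ratio.inv₀ one_ne_zero).mul ((hh_mean E N n hN χ hχ).add
        ((mean_finite A _ hVNf).const_mul M))
    · exact ((mean_res E).add (mean_finite A' _ (above_fin E _ hVNf))).const_mul (K ^ 2)
  rw [inv_one, mul_zero, add_zero, one_mul, add_zero, mul_zero, add_zero] at hlim
  filter_upwards [hlim.eventually (gt_mem_nhds (lt_add_of_pos_right _ hε)), self_mem_nhdsWithin]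
    with s h1 hs
  have hs' : (1 : ℝ) < s := hs
  refine le_trans ?_ h1.le
  -- split
  have hbi : ∀ w, |(if E.below w ∈ VN then ‖f w‖ ^ 2 else 0)| ≤ K ^ 2 := by
    intro w
    split_ifs
    · exact sq_abs_le hb w
    · rw [abs_zero]; positivity
  have hbj : ∀ w, |(if E.res w = 1 then (if E.below w ∈ VN then ‖f w‖ ^ 2 else 0) else 0)|
      ≤ K ^ 2 := by
    intro w
    split_ifs
    · exact sq_abs_le hb w
    · rw [abs_zero]; positivity
    · rw [abs_zero]; positivity
  have hbk : ∀ (Z : Set A'.Place) (w : A'.Place),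
      |K ^ 2 * Z.indicator (1 : A'.Place → ℝ) w| ≤ K ^ 2 := by
    intro Z w
    rw [abs_mul, abs_of_nonneg (by positivity : (0 : ℝ) ≤ K ^ 2)]
    exact (mul_le_mul_of_nonneg_left (indicator_abs_le A' Z w) (by positivity)).trans
      (by rw [mul_one])
  have h2 : mean A'.toGLSide s (fun w => ‖f w‖ ^ 2)
      ≤ mean A'.toGLSide s (fun w =>
        (if E.res w = 1 then (if E.below w ∈ VN then ‖f w‖ ^ 2 else 0) else 0)
        + (K ^ 2 * {w | E.res w ≠ 1}.indicator 1 w + K ^ 2 * (E.below ⁻¹' VNᶜ).indicator 1 w)) := by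
    apply mean_mono A' hs' _ _ (K ^ 2) (K ^ 2 + (K ^ 2 + K ^ 2)) (sq_abs_le hb)
    · intro w
      exact (abs_add_le _ _).trans (add_le_add (hbj w)
        ((abs_add_le _ _).trans (add_le_add (hbk _ w) (hbk _ w))))
    · intro w
      have h3 : ‖f w‖ ^ 2 ≤ K ^ 2 := pow_le_pow_left₀ (norm_nonneg _) (hb w) 2
      have h4 : ∀ Z : Set A'.Place, 0 ≤ K ^ 2 * Z.indicator (1 : A'.Place → ℝ) w := fun Z =>
        mul_nonneg (by positivity) (Set.indicator_nonneg (fun _ _ => zero_le_one) w)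
      by_cases h5 : E.res w = 1
      · rw [if_pos h5]
        by_cases h6 : E.below w ∈ VN
        · rw [if_pos h6]
          linarith [h4 {w | E.res w ≠ 1}, h4 (E.below ⁻¹' VNᶜ)]
        · rw [if_neg h6, Set.indicator_of_mem (s := E.below ⁻¹' VNᶜ) (by exact h6)]
          have := h4 {w | E.res w ≠ 1}
          simp only [Pi.one_apply, mul_one] at *
          linarith
      · rw [if_neg h5, Set.indicator_of_mem (s := {w | E.res w ≠ 1}) (by exact h5)]
        have := h4 (E.below ⁻¹' VNᶜ)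
        simp only [Pi.one_apply, mul_one] at *
        linarith
  have h7 := mean_push E hs' (fun w => if E.below w ∈ VN then ‖f w‖ ^ 2 else 0) (K ^ 2) hbi
  have h8 : mean A.toGLSide s (fun v => ∑ w ∈ W E v, (if E.below w ∈ VN then ‖f w‖ ^ 2 else 0))
      ≤ mean A.toGLSide s (hh E N n χ) + M * mean A.toGLSide s (VNᶜ.indicator 1) := by
    have h9 : mean A.toGLSide s (fun v => ∑ w ∈ W E v,
        (if E.below w ∈ VN then ‖f w‖ ^ 2 else 0))
        ≤ mean A.toGLSide s (fun v => hh E N n χ v + M * VNᶜ.indicator 1 v) := by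
      apply mean_mono A hs' _ _ (E.degree * K ^ 2) (M + M) _ _ hpt
      · intro v
        refine (Finset.abs_sum_le_sum_abs _ _).trans ?_
        calc ∑ w ∈ W E v, |(if E.below w ∈ VN then ‖f w‖ ^ 2 else 0)|
            ≤ ∑ w ∈ W E v, K ^ 2 := Finset.sum_le_sum fun w _ => hbi w
          _ = (W E v).card * K ^ 2 := by rw [Finset.sum_const, nsmul_eq_mul]
          _ ≤ E.degree * K ^ 2 := by
              apply mul_le_mul_of_nonneg_right _ (by positivity)
              exact_mod_cast card_W E v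
      · intro v
        refine (abs_add_le _ _).trans (add_le_add (hM v) ?_)
        rw [abs_mul, abs_of_nonneg hM0]
        exact (mul_le_mul_of_nonneg_left (indicator_abs_le A _ v) hM0).trans (by rw [mul_one])
    rw [mean_add A hs' (hh E N n χ) (fun v => M * VNᶜ.indicator 1 v) M M hM (by
      intro v
      rw [abs_mul, abs_of_nonneg hM0]
      exact (mul_le_mul_of_nonneg_left (indicator_abs_le A _ v) hM0).trans (by rw [mul_one])),
      mean_mul] at h9
    exact h9
  have hrho : 0 < rho A A' s := rho_pos hs'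
  have h10 : mean A'.toGLSide s (fun w =>
      if E.res w = 1 then (if E.below w ∈ VN then ‖f w‖ ^ 2 else 0) else 0)
      ≤ (rho A A' s)⁻¹ * (mean A.toGLSide s (hh E N n χ)
        + M * mean A.toGLSide s (VNᶜ.indicator 1)) := by
    rw [inv_mul_eq_div, le_div_iff₀ hrho, mul_comm, ← h7]
    exact h8
  rw [mean_add A' hs' _ _ (K ^ 2) (K ^ 2 + K ^ 2) hbj (fun w =>
    (abs_add_le _ _).trans (add_le_add (hbk _ w) (hbk _ w))),
    mean_add A' hs' _ _ (K ^ 2) (K ^ 2) (hbk _) (hbk _), mean_mul, mean_mul] at h2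
  have h11 : rho A A' s = (∑' w, A'.nm w ^ (-s)) / ∑' v, A.nm v ^ (-s) := rfl
  have h12 : mean A'.toGLSide s (fun v => {w | E.res w ≠ 1}.indicator 1 v)
      = mean A'.toGLSide s ({w | E.res w ≠ 1}.indicator 1) := rfl
  have h13 : mean A'.toGLSide s (fun v => (E.below ⁻¹' VNᶜ).indicator 1 v)
      = mean A'.toGLSide s ((E.below ⁻¹' VNᶜ).indicator 1) := rfl
  rw [h12, h13] at h2
  linarith

end Pool.H81.FX
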