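import Mathlib
import Pool.Agent.H81.FX.Second
import Pool.Agent.H81.FX.Roots
import Pool.Agent.H23.Base.Limit3
import Pool.Agent.H23.Stab.Core

/-!
The common part of the twisted base changes.
-/

namespace Pool.H81.FX

open Pool.H73.Func Pool.H23.Stab Pool.H23.Base Filter Topology

theorem expo_zero (A : RamSide) (Q : Multiset A.Cusp) (w : A.Place) (h1 : ∀ τ ∈ Q, w ∈ A.unr τ)
    (h2 : ∀ a ∈ params A.toGLSide Q w, ‖a‖ = 1) : ∀ τ ∈ Q, A.expo τ = 0 := by
  intro τ hτ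
  have hc : 0 < (A.par τ w).card := by
    rw [A.card_par τ w (h1 τ hτ)]
    exact one_le_deg A τ
  obtain ⟨a, ha⟩ := Multiset.card_pos_iff_exists_mem.1 hc
  obtain ⟨R, rfl⟩ := Multiset.exists_cons_of_mem hτ
  have h3 : a ∈ params A.toGLSide (τ ::ₘ R) w := by
    rw [params_cons]
    exact Multiset.mem_add.2 (Or.inl ha)
  have h4 := h2 a h3
  rw [A.par_norm τ w (h1 τ hτ) a ha] at h4
  exact rpow_inj_expo A w (h4.trans (Real.rpow_zero _).symm)

theorem mem_fsum {ι α : Type*} {t : Finset ι} {f : ι → Multiset α} {a : α}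
    (h : a ∈ ∑ i ∈ t, f i) : ∃ i ∈ t, a ∈ f i := by
  obtain ⟨i, hi, h⟩ := Multiset.mem_sum.1 h
  exact ⟨i, hi, h⟩

theorem map_msum {α β γ : Type*} (g : β → γ) (C : Multiset α) (f : α → Multiset β) :
    (C.map f).sum.map g = (C.map fun a => (f a).map g).sum := by
  induction C using Multiset.induction_on with
  | empty => simp
  | cons a C ih => simp [ih]

variable {A A' : RamSide} (E : FinExt A A')

theorem sum_above (v : A.Place) (g : A'.Place → ℂ) :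
    ∑ w ∈ E.above v, (if E.res w = 1 then g w else 0) = ∑ w ∈ W E v, g w := by
  rw [W, Finset.sum_filter]

theorem sum_rt_above (v : A.Place) (M : A'.Place → Multiset ℂ) :
    (∑ w ∈ E.above v, rt (E.res w) (M w)).sum = ∑ w ∈ W E v, (M w).sum := by
  rw [sum_fsum, ← sum_above]
  apply Finset.sum_congr rfl
  intro w _
  have h := E.res_pos w
  split_ifs with h1
  · rw [h1, sum_rt_one]
  · rw [sum_rt (by omega)]

/-- `P χ` is the lifting of the representation induced by `X ⊗ χ`. -/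
structure Lifts (V : Set A.Place) (X : A'.Place → Multiset ℂ) (P : E.Chr → Multiset A.Cusp) :
    Prop where
  expo : ∀ χ, ∀ σ ∈ P χ, A.expo σ = 0
  unr : ∀ χ, ∀ v ∈ VV E V χ, ∀ σ ∈ P χ, v ∈ A.unr σ
  par : ∀ χ, ∀ v ∈ VV E V χ, params A.toGLSide (P χ) v =
    ∑ w ∈ E.above v, rt (E.res w) ((X w).map fun a => E.val χ w * a)

/-- `ai θ` is the automorphic induction of the unitary `θ` (at the unramified places). -/
def IsAI (ai : A'.Cusp → Multiset A.Cusp) : Prop :=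
  ∀ θ, A'.expo θ = 0 → ∀ v, v ∉ E.Ram → ((∀ σ ∈ ai θ, v ∈ A.unr σ) ↔ ∀ w ∈ E.above v, w ∈ A'.unr θ) ∧
      ((∀ w ∈ E.above v, w ∈ A'.unr θ) →
        params A.toGLSide (ai θ) v = ∑ w ∈ E.above v, rt (E.res w) (A'.par θ w))

variable {E} {V : Set A.Place} {X : A'.Place → Multiset ℂ} {P : E.Chr → Multiset A.Cusp}
  {ai : A'.Cusp → Multiset A.Cusp} {n : ℕ}

theorem below_W {v : A.Place} {w : A'.Place} (h : w ∈ W E v) : E.below w = v :=
  ((mem_W E v w).1 h).1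

theorem T_P (hP : Lifts E V X P) (χ : E.Chr) (v : A.Place) (hv : v ∈ VV E V χ) :
    T A (P χ) v = ∑ w ∈ W E v, E.val χ w * xx E V X w := by
  rw [T_eq_params A _ v (hP.unr χ v hv), hP.par χ v hv, sum_rt_above]
  apply Finset.sum_congr rfl
  intro w hw
  rw [sum_map_mul, xx, Set.indicator_of_mem]
  rw [Set.mem_preimage, below_W hw]
  exact hv.1

theorem norm_par_P (hX1 : ∀ w, E.below w ∈ V → ∀ a ∈ X w, ‖a‖ = 1) (hP : Lifts E V X P)
    (χ : E.Chr) (v : A.Place) (hv : v ∈ VV E V χ) : ∀ a ∈ params A.toGLSide (P χ) v, ‖a‖ = 1 := by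
  intro a ha
  rw [hP.par χ v hv] at ha
  obtain ⟨w, hw, ha⟩ := mem_fsum ha
  have h := E.res_pos w
  obtain ⟨b, hb, h2⟩ := Multiset.mem_map.1 ((mem_rt h).1 ha)
  have h3 : ‖a‖ ^ E.res w = 1 := by
    rw [← norm_pow, ← h2, norm_mul, E.norm_val _ _ (hv.2 w hw),
      hX1 w (by rw [(E.mem_above v w).1 hw]; exact hv.1) b hb, one_mul]
  exact (pow_eq_one_iff_of_nonneg (norm_nonneg _) (by omega)).1 h3

theorem card_par_P (hX : ∀ w, E.below w ∈ V → (X w).card ≤ n) (hP : Lifts E V X P)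
    (χ : E.Chr) (v : A.Place) (hv : v ∈ VV E V χ) :
    (params A.toGLSide (P χ) v).card ≤ E.degree * n := by
  rw [hP.par χ v hv, Multiset.card_sum]
  calc ∑ w ∈ E.above v, (rt (E.res w) ((X w).map fun a => E.val χ w * a)).card
      ≤ ∑ w ∈ E.above v, E.res w * n := by
        apply Finset.sum_le_sum
        intro w hw
        rw [card_rt (E.res_pos w), Multiset.card_map]
        exact Nat.mul_le_mul_left _ (hX w (by rw [(E.mem_above v w).1 hw]; exact hv.1))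
    _ = (∑ w ∈ E.above v, E.res w) * n := by rw [Finset.sum_mul]
    _ ≤ E.degree * n := Nat.mul_le_mul_right _ (E.sum_res v)

theorem exists_place (X : Set A.Place) (hX : Xᶜ.Finite) : ∃ v, v ∈ X := by
  have := A.inf
  have h := hX.infinite_compl
  rw [compl_compl] at h
  exact h.nonempty

theorem exists_place' (X : Set A.Place) (hX : Xᶜ.Finite) : ∃ w : A'.Place, E.below w ∈ X := by
  have := A'.inf
  have h := (above_fin E Xᶜ hX).infinite_compl.nonempty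
  obtain ⟨w, hw⟩ := h
  exact ⟨w, by simpa using hw⟩

section base
variable (hV : Vᶜ.Finite) (hR : ∀ v ∈ V, v ∉ E.Ram)
  (hX : ∀ w, E.below w ∈ V → (X w).card ≤ n)
  (hX1 : ∀ w, E.below w ∈ V → ∀ a ∈ X w, ‖a‖ = 1) (hP : Lifts E V X P)

include hR hX1 hP hV in
theorem expo_bc (χ : E.Chr) (Q : Multiset A'.Cusp) (hQ : E.IsBaseChange (P χ) Q) :
    ∀ τ ∈ Q, A'.expo τ = 0 := by
  obtain ⟨w, hw⟩ := exists_place' (E := E) _ (VV_cofinite E V hV χ)
  obtain ⟨h1, h2⟩ := hQ w (hR _ hw.1) (hP.unr χ _ hw)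
  apply expo_zero A' Q w h1
  intro a ha
  rw [h2] at ha
  obtain ⟨b, hb, rfl⟩ := Multiset.mem_map.1 ha
  rw [norm_pow, norm_par_P hX1 hP χ _ hw b hb, one_pow]

include hR hX hP hV in
theorem deg_bc (χ : E.Chr) (Q : Multiset A'.Cusp) (hQ : E.IsBaseChange (P χ) Q) :
    (Q.map A'.deg).sum ≤ E.degree * n := by
  obtain ⟨w, hw⟩ := exists_place' (E := E) _ (VV_cofinite E V hV χ)
  obtain ⟨h1, h2⟩ := hQ w (hR _ hw.1) (hP.unr χ _ hw)
  rw [← card_params A' Q w h1, h2, Multiset.card_map]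
  exact card_par_P hX hP χ _ hw

include hR hP in
theorem T_bc (χ : E.Chr) (Q : Multiset A'.Cusp) (hQ : E.IsBaseChange (P χ) Q) (w : A'.Place)
    (hw1 : E.res w = 1) (hw : E.below w ∈ VV E V χ) :
    T A' (Q.map (E.tw χ⁻¹)) w = ∑ u ∈ W E (E.below w),
      (starRingEnd ℂ) (E.val χ w) * E.val χ u * xx E V X u := by
  obtain ⟨h1, h2⟩ := hQ w (hR _ hw.1) (hP.unr χ _ hw)
  have hwc : w ∈ E.cunr χ := hw.2 w ((E.mem_above _ _).2 rfl)
  have hwc' : w ∈ E.cunr χ⁻¹ := by rw [E.cunr_inv]; exact hwc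
  have h3 : ∀ τ ∈ Q.map (E.tw χ⁻¹), w ∈ A'.unr τ := by
    intro τ hτ
    obtain ⟨σ, hσ, rfl⟩ := Multiset.mem_map.1 hτ
    exact E.unr_tw _ σ ⟨hwc', h1 σ hσ⟩
  have h4 : params A'.toGLSide (Q.map (E.tw χ⁻¹)) w
      = (params A'.toGLSide Q w).map fun a => E.val χ⁻¹ w * a := by
    unfold params
    rw [map_msum, Multiset.map_map]
    congr 1
    apply Multiset.map_congr rfl
    intro σ hσ
    exact E.par_tw _ σ w ⟨hwc', h1 σ hσ⟩
  rw [T_eq_params A' _ w h3, h4, sum_map_mul, h2, hw1]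
  simp only [pow_one, Multiset.map_id']
  rw [← T_eq_params A _ _ (hP.unr χ _ hw), T_P hP χ _ hw, val_inv E χ w hwc, Finset.mul_sum]
  apply Finset.sum_congr rfl
  intro u _
  ring

include hV hR hX hX1 hP in
/-- The common core of the twisted base changes. -/
theorem exists_core (hbc : ∀ P : Multiset A.Cusp, ∃ Q : Multiset A'.Cusp, E.IsBaseChange P Q) :
    ∃ C : Multiset A'.Cusp, (∀ σ ∈ C, A'.expo σ = 0) ∧
      Small A' (fun w => xx E V X w - T A' C w) 0 := by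
  classical
  choose bc hbc using hbc
  obtain ⟨χ0, hχ0⟩ := E.moving
  set D := E.degree * n with hD
  set Y : ℕ → Multiset A'.Cusp := fun i => (bc (P (χ0 i))).map (E.tw (χ0 i)⁻¹) with hY
  have hYe : ∀ i, ∀ σ ∈ Y i, A'.expo σ = 0 := by
    intro i σ hσ
    obtain ⟨τ, hτ, rfl⟩ := Multiset.mem_map.1 hσ
    rw [E.expo_tw]
    exact expo_bc hV hR hX1 hP (χ0 i) _ (hbc _) τ hτ
  have hYd : ∀ i, ((Y i).map A'.deg).sum ≤ D := by
    intro i
    refine le_trans (le_of_eq ?_) (deg_bc hV hR hX hP (χ0 i) _ (hbc _))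
    rw [hY]
    simp only [Multiset.map_map]
    congr 1
    apply Multiset.map_congr rfl
    intro σ _
    exact E.deg_tw _ σ
  obtain ⟨g, C, R, hg, hCR, hdis⟩ := sunflower D Y fun i => (card_le_deg A' _).trans (hYd i)
  have hmem : ∀ i, ∀ σ, σ ∈ C ∨ σ ∈ R i → A'.expo σ = 0 := by
    intro i σ h
    apply hYe (g i) σ
    rw [hCR i]
    exact Multiset.mem_add.2 h
  have hRD : ∀ i, (R i).card ≤ D := by
    intro i
    have h1 : (Y (g i)).card ≤ D := (card_le_deg A' _).trans (hYd _)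
    rw [hCR i, Multiset.card_add] at h1
    omega
  refine ⟨C, fun σ hσ => hmem 0 σ (Or.inl hσ), ?_⟩
  apply Small.of_all (C := 2 * ((n : ℝ) ^ 2 * (E.degree : ℝ) ^ 3) + 2 * (D : ℝ) ^ 2)
    (by positivity)
  intro N hN
  have hχ : ∀ i j, i ≠ j → Tendsto (fun s : ℝ => mean A.toGLSide s fun v =>
      ‖ss E (χ0 (g i)) (χ0 (g j)) v‖ ^ 2) (𝓝[>] 1) (𝓝 1) := fun i j hij =>
    hχ0 (g i) (g j) (hg.injective.ne hij)
  have h1 := small_first E hV hX hX1 (fun i => χ0 (g i)) hχ N hN (fun i => Y (g i)) D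
    (fun i => hYe (g i)) (fun i => hYd (g i))
    (fun i w hw1 hw => T_bc hR hP (χ0 (g i)) _ (hbc _) w hw1 hw)
  have h2 := small_second R D (fun i σ hσ => hmem i σ (Or.inr hσ)) hRD hdis N hN
  have h3 := h1.add h2
  have e : (fun w => (xx E V X w - ∑ i ∈ Finset.range N,
      ((1 / (N : ℝ) : ℝ) : ℂ) * T A' (Y (g i)) w)
      + ∑ i ∈ Finset.range N, ((1 / (N : ℝ) : ℝ) : ℂ) * T A' (R i) w)
      = fun w => xx E V X w - T A' C w := by
    funext w
    have e1 : ∀ i ∈ Finset.range N, ((1 / (N : ℝ) : ℝ) : ℂ) * T A' (Y (g i)) w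
        = ((1 / (N : ℝ) : ℝ) : ℂ) * T A' C w + ((1 / (N : ℝ) : ℝ) : ℂ) * T A' (R i) w := by
      intro i _
      rw [hCR i, T_add, mul_add]
    rw [Finset.sum_congr rfl e1, Finset.sum_add_distrib, Finset.sum_const, Finset.card_range,
      nsmul_eq_mul]
    have hN0 : (N : ℂ) ≠ 0 := by
      have : (N : ℝ) ≠ 0 := by positivity
      exact_mod_cast this
    have e2 : (N : ℂ) * (((1 / (N : ℝ) : ℝ) : ℂ) * T A' C w) = T A' C w := by
      push_cast
      field_simp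
    rw [e2]
    ring
  rw [e] at h3
  apply h3.mono
  apply le_of_eq
  ring

end base

/-- The automorphic induction of `C ⊗ χ`. -/
def aim (ai : A'.Cusp → Multiset A.Cusp) (C : Multiset A'.Cusp) (χ : E.Chr) :
    Multiset A.Cusp := (C.map fun θ => ai (E.tw χ θ)).sum

theorem tw_unr (χ : E.Chr) (v : A.Place) (hχ : ∀ w ∈ E.above v, w ∈ E.cunr χ) (θ : A'.Cusp)
    (hθ : ∀ w ∈ E.above v, w ∈ A'.unr θ) : ∀ w ∈ E.above v, w ∈ A'.unr (E.tw χ θ) :=
  fun w hw => E.unr_tw χ θ ⟨hχ w hw, hθ w hw⟩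

theorem unr_aim (hai : IsAI E ai) (C : Multiset A'.Cusp) (hC0 : ∀ θ ∈ C, A'.expo θ = 0)
    (χ : E.Chr) (v : A.Place) (hv : v ∉ E.Ram) (hχ : ∀ w ∈ E.above v, w ∈ E.cunr χ)
    (hC : ∀ θ ∈ C, ∀ w ∈ E.above v, w ∈ A'.unr θ) : ∀ σ ∈ aim ai C χ, v ∈ A.unr σ := by
  intro σ hσ
  obtain ⟨Z, hZ, h⟩ := Multiset.mem_join.1
    (show σ ∈ (C.map fun θ => ai (E.tw χ θ)).join from hσ)
  obtain ⟨θ, hθ, rfl⟩ := Multiset.mem_map.1 hZ
  have h0 : A'.expo (E.tw χ θ) = 0 := by rw [E.expo_tw, hC0 θ hθ]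
  exact ((hai _ h0 v hv).1.2 (tw_unr χ v hχ θ (hC θ hθ))) σ h

theorem params_aim (hai : IsAI E ai) (C : Multiset A'.Cusp) (hC0 : ∀ θ ∈ C, A'.expo θ = 0)
    (χ : E.Chr) (v : A.Place) (hv : v ∉ E.Ram) (hχ : ∀ w ∈ E.above v, w ∈ E.cunr χ)
    (hC : ∀ θ ∈ C, ∀ w ∈ E.above v, w ∈ A'.unr θ) :
    params A.toGLSide (aim ai C χ) v = ∑ w ∈ E.above v, rt (E.res w)
      ((params A'.toGLSide C w).map fun a => E.val χ w * a) := by
  classical
  induction C using Multiset.induction_on with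
  | empty => simp [aim, params, rt_zero]
  | cons θ C ih =>
    have hθ := hC θ (Multiset.mem_cons_self _ _)
    have e : aim (E := E) ai (θ ::ₘ C) χ = ai (E.tw χ θ) + aim ai C χ := by simp [aim]
    have h0 : A'.expo (E.tw χ θ) = 0 := by rw [E.expo_tw, hC0 θ (Multiset.mem_cons_self _ _)]
    rw [e, params_add, ih (fun τ hτ => hC0 τ (Multiset.mem_cons_of_mem hτ))
      fun τ hτ => hC τ (Multiset.mem_cons_of_mem hτ),
      (hai _ h0 v hv).2 (tw_unr χ v hχ θ hθ), ← Finset.sum_add_distrib]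
    apply Finset.sum_congr rfl
    intro w hw
    rw [params_cons, Multiset.map_add, rt_add, E.par_tw χ θ w ⟨hχ w hw, hθ w hw⟩]

theorem expo_aim (hai : IsAI E ai) (C : Multiset A'.Cusp) (hC : ∀ θ ∈ C, A'.expo θ = 0)
    (χ : E.Chr) : ∀ σ ∈ aim ai C χ, A.expo σ = 0 := by
  intro σ hσ
  obtain ⟨Z, hZ, h⟩ := Multiset.mem_join.1
    (show σ ∈ (C.map fun θ => ai (E.tw χ θ)).join from hσ)
  obtain ⟨θ, hθ, rfl⟩ := Multiset.mem_map.1 hZ
  have hfin : (E.Ram ∪ E.below '' (A'.unr (E.tw χ θ))ᶜ).Finite :=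
    E.ram_finite.union ((A'.unr_cofinite _).image _)
  obtain ⟨v, hv⟩ := exists_place (A := A) (E.Ram ∪ E.below '' (A'.unr (E.tw χ θ))ᶜ)ᶜ
    (by rw [compl_compl]; exact hfin)
  rw [Set.mem_compl_iff, Set.mem_union, not_or] at hv
  have hun : ∀ w ∈ E.above v, w ∈ A'.unr (E.tw χ θ) := by
    intro w hw
    by_contra hn
    exact hv.2 ⟨w, hn, (E.mem_above v w).1 hw⟩
  obtain ⟨h1, h2⟩ := hai (E.tw χ θ) (by rw [E.expo_tw, hC θ hθ]) v hv.1
  apply expo_zero A (ai (E.tw χ θ)) v (h1.2 hun) _ σ h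
  intro a ha
  rw [h2 hun] at ha
  obtain ⟨w, hw, ha⟩ := mem_fsum ha
  have h3 := A'.par_norm _ w (hun w hw) _ ((mem_rt (E.res_pos w)).1 ha)
  rw [E.expo_tw, hC θ hθ, Real.rpow_zero, norm_pow] at h3
  exact (pow_eq_one_iff_of_nonneg (norm_nonneg _) (by have := E.res_pos w; omega)).1 h3

/-- The liftings are automorphic inductions. -/
theorem eq_aim (hV : Vᶜ.Finite) (hR : ∀ v ∈ V, v ∉ E.Ram) (hP : Lifts E V X P)
    (hai : IsAI E ai) (C : Multiset A'.Cusp) (hC : ∀ θ ∈ C, A'.expo θ = 0)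
    (hs : Small A' (fun w => xx E V X w - T A' C w) 0) (χ : E.Chr) : P χ = aim ai C χ := by
  classical
  apply eq_of_small A _ _ (hP.expo χ) (expo_aim hai C hC χ)
  have h1 := small_push E hs ((E.cunr χ).indicator (E.val χ)) (by
    intro w
    by_cases h : w ∈ E.cunr χ
    · rw [Set.indicator_of_mem h, E.norm_val _ _ h]
    · rw [Set.indicator_of_notMem h, norm_zero]; exact zero_le_one)
  refine h1.congr (((P χ).map A.deg).sum + ((aim ai C χ).map A.deg).sum : ℝ) ?_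
    ((VV E V χ)ᶜ ∪ ⋃ θ ∈ C.toFinset, E.below '' (A'.unr θ)ᶜ) ?_ ?_
  · intro w
    refine (norm_sub_le _ _).trans (add_le_add ?_ ?_)
    · exact_mod_cast norm_T_le A _ (hP.expo χ) w
    · exact_mod_cast norm_T_le A _ (expo_aim hai C hC χ) w
  · exact (VV_cofinite E V hV χ).union (Set.Finite.biUnion (Finset.finite_toSet _)
      fun θ _ => (A'.unr_cofinite θ).image _)
  · intro v hv
    rw [Set.mem_union, not_or] at hv
    have hv1 : v ∈ VV E V χ := by
      by_contra hn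
      exact hv.1 hn
    have hv2 : ∀ θ ∈ C, ∀ w ∈ E.above v, w ∈ A'.unr θ := by
      intro θ hθ w hw
      by_contra hn
      apply hv.2
      simp only [Set.mem_iUnion]
      exact ⟨θ, Multiset.mem_toFinset.2 hθ, w, hn, (E.mem_above v w).1 hw⟩
    have hR' := hR v hv1.1
    rw [T_P hP χ v hv1, T_eq_params A _ v (unr_aim hai C hC χ v hR' hv1.2 hv2),
      params_aim hai C hC χ v hR' hv1.2 hv2, sum_rt_above, ← Finset.sum_sub_distrib]
    apply Finset.sum_congr rfl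
    intro w hw
    have hw' : w ∈ E.above v := Finset.mem_of_mem_filter w hw
    rw [sum_map_mul, T_eq_params A' C w (fun θ hθ => hv2 θ hθ w hw'),
      Set.indicator_of_mem (hv1.2 w hw')]
    ring

end Pool.H81.FX
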