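import Mathlib

/-!
The irreducible representations of the Weil group of the real numbers.
-/

namespace Pool.H81.FX

/-- The irreducible representations of the Weil group `W` of the real numbers. -/
inductive RealIrr
  /-- The character `|.|^t` (for `false`) or `sgn ⊗ |.|^t` (for `true`). -/
  | chr (ε : Bool) (t : ℂ)
  /-- The representation of dimension `2` induced by the character
  `(z / |z|) ^ (k + 1) * |z| ^ (2 * t)` of the subgroup `ℂ^×`. -/
  | ind (k : ℕ) (t : ℂ)

/-- The exponent `t`. -/
def RealIrr.expo : RealIrr → ℂ
  | chr _ t => t
  | ind _ t => t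

/-- The conjugate of the dual. -/
def RealIrr.cdual : RealIrr → RealIrr
  | chr ε t => chr ε (-(starRingEnd ℂ) t)
  | ind k t => ind k (-(starRingEnd ℂ) t)

/-- The product with the character `sgn`. -/
def RealIrr.sgn : RealIrr → RealIrr
  | chr ε t => chr (!ε) t
  | ind k t => ind k t

/-- The numbers `c` such that the `L`-factor is the product of the `Γ_ℝ(s + c)`. -/
noncomputable def RealIrr.shifts : RealIrr → Multiset ℂ
  | chr false t => {t}
  | chr true t => {t + 1}
  | ind k t => {t + (k + 1) / 2, t + (k + 1) / 2 + 1}

end Pool.H81.FX
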