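import Mathlib
import Pool.Agent.H81.FX.FinExt
import Pool.Agent.H81.FX.RealDefs

/-!
Definitions: functorial liftings over `K = ℚ` and over an arbitrary finite extension `K'` of `K`,
with all liftings known at the unramified places only.
-/

namespace Pool.H81.FX

open Pool.H73.Func Pool.H23.Stab Pool.H23.Base Filter Topology

/-- Local facts at the places of `K = ℚ`: `some v` is a finite place, `none` is the real place. -/
structure Loc (A : RamSide) where
  /-- The semiring (direct sum, tensor product) of the classes of the semisimple representations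
  of `W_v × SL(2)` (of `W_v` for the real place `v`). -/
  R : Option A.Place → Type
  [semi : ∀ v, CommSemiring (R v)]
  /-- The characters of finite order of `K_v^×`. -/
  LChr : Option A.Place → Type
  [lgrp : ∀ v, CommGroup (LChr v)]
  lc : ∀ v, LChr v →* R v
  /-- The ramified characters. -/
  ram : ∀ v : A.Place, Set (LChr (some v))
  ram_nonempty : ∀ v, (ram v).Nonempty
  /-- The degree and the determinant. -/
  Det : Option A.Place → Type
  det : ∀ v, R v → Det v
  det_mul : ∀ v χ a b, det v a = det v b → det v (lc v χ * a) = det v (lc v χ * b)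
  /-- The exponent of the Artin conductor. -/
  cond : ∀ v : A.Place, R (some v) → ℕ
  cond_zero : ∀ v, cond v 0 = 0
  cond_add : ∀ v a b, cond v (a + b) = cond v a + cond v b
  /-- The group of the nonzero meromorphic functions of `s`. -/
  Mer : Type
  [mer : CommGroup Mer]
  /-- The factor `γ(s, a, ψ_v) = ε(s, a, ψ_v) L(1 - s, a^∨) / L(s, a)`, for a fixed character
  `ψ` of the adeles of `K`. -/
  gam : ∀ v, R v → Mer
  /-- The class of the parameters of unitary generic representations: they are isomorphic to the
  conjugate of their dual, and sums of representations `b ⊗ |.|^x` with `b` unitary and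
  `-1/2 < x < 1/2`. -/
  UG : ∀ v, Set (R v)
  zero_UG : ∀ v, 0 ∈ UG v
  add_UG : ∀ v, ∀ a ∈ UG v, ∀ b ∈ UG v, a + b ∈ UG v
  mul_UG : ∀ v χ, ∀ a ∈ UG v, lc v χ * a ∈ UG v
  /-- `a` and `b` have the same `L`- and `ε`-factors, and so have their duals. -/
  Same : ∀ v, R v → R v → Prop
  same_refl : ∀ v a, Same v a a
  /-- The irreducible constituents of a representation of the Weil group of the real numbers. -/
  real : R none → Multiset RealIrr
  real_inj : Function.Injective real
  real_sgn : ∃ χ, ∀ a, real (lc none χ * a) = (real a).map RealIrr.sgn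
  real_UG : ∀ a ∈ UG none, (real a).map RealIrr.cdual = real a ∧
    ∀ x ∈ real a, |x.expo.re| < 1 / 2
  /-- For `a` in `UG` the zeros of `γ(s, a)` with `Re s < 1/2` are the poles of `L(s, a)`, which is
  the product of the `Γ_ℝ(s + c)` for the shifts `c` of `a`; these poles determine the shifts. -/
  real_gam : ∀ a ∈ UG none, ∀ b ∈ UG none, gam none a = gam none b →
    (real a).bind RealIrr.shifts = (real b).bind RealIrr.shifts
  /-- In the class `UG` the factor `γ` gives the `L`- and `ε`-factors, thus the conductor. -/
  cond_gam : ∀ v, ∀ a ∈ UG (some v), ∀ b ∈ UG (some v),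
    det (some v) a = det (some v) b → gam (some v) a = gam (some v) b → cond v a = cond v b
  /-- The same for the product with a sum `r` of unramified characters `|.|^s`. -/
  same_gam : ∀ v r, cond v r = 0 → ∀ a ∈ UG (some v), ∀ b ∈ UG (some v),
    det (some v) a = det (some v) b → gam (some v) a = gam (some v) b →
      Same (some v) (r * a) (r * b)
  /-- Stability: for highly ramified `χ` the factors of `χ ⊗ a` depend only on the degree and on
  the determinant of `a`. -/
  stable : ∀ (v : A.Place) (a b : R (some v)), det (some v) a = det (some v) b →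
    ∃ χ, gam (some v) (lc (some v) χ * a) = gam (some v) (lc (some v) χ * b)
  /-- In this it is enough that `χ` is highly ramified with respect to the conductor. -/
  stable_cond : ∀ (v : A.Place) (r : R (some v)) (N : ℕ), ∃ χ, ∀ a b : R (some v),
    det (some v) a = det (some v) b → cond v a ≤ N → cond v b ≤ N →
      Same (some v) (r * (lc (some v) χ * a)) (r * (lc (some v) χ * b))

attribute [instance] Loc.semi Loc.lgrp Loc.mer

/-- The known facts on a finite extension `K'` of `K = ℚ` and automorphic representations over `K`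
(theories `A`, `B`) and over `K'` (theories `A'`, `B'`).
The cuspidal representations are those of the groups `GL(n)`, for all `n`; they satisfy the
Ramanujan conjecture (over `K'`: at almost all places), which is a consequence of functoriality
over `K` (Langlands).
`D` is the semiring of the families, indexed by all places `v` of `K`, of elements of `R v`, of the
same dimension for all `v` and unramified for almost all `v`; `D'` is the same for `K'`. -/
structure OverQ (A A' : RamSide) (B : LSide A.toGLSide) (B' : LSide A'.toGLSide) extends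
    FinExt A A', Loc A where
  D : Type
  [semiD : CommSemiring D]
  D' : Type
  [semiD' : CommSemiring D']
  /-- The member at `v` of a family. -/
  loc : ∀ v, D →+* R v
  /-- The local Langlands parameters of a cuspidal representation at all places (Harris-Taylor,
  Henniart, Langlands). -/
  cls : A.Cusp → D
  cls' : A'.Cusp → D'
  /-- Induction and restriction of families of parameters. -/
  ind : D' →+ D
  rs : D → D'
  proj : ∀ a b, ind (rs a * b) = a * ind b
  /-- The Hecke characters of finite order of `K`. -/
  HChr : Type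
  hl : HChr → ∀ v, LChr v
  ch : HChr → D
  loc_ch : ∀ η v, loc v (ch η) = lc v (hl η v)
  /-- Grunwald-Wang. -/
  grunwald : ∀ (S : Finset (Option A.Place)) (f : ∀ v, LChr v), ∃ η : HChr, ∀ v ∈ S, hl η v = f v
  /-- Unitary cuspidal representations are unitary and generic at all places. -/
  ug_cls : ∀ σ, A.expo σ = 0 → ∀ v, loc v (cls σ) ∈ UG v
  ug_ind : ∀ τ, A'.expo τ = 0 → ∀ v, loc v (ind (cls' τ)) ∈ UG v
  /-- The places of `K'` where `τ` is unramified.  At the places in `A'.unr τ` it also satisfies
  the Ramanujan conjecture. -/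
  Unr : A'.Cusp → Set A'.Place
  unr_iff : ∀ τ w, w ∈ A'.unr τ ↔ w ∈ Unr τ ∧ ∀ a ∈ A'.par τ w, ‖a‖ = A'.nm w ^ A'.expo τ
  /-- The conductors at unramified places. -/
  cond_cls : ∀ σ, ∀ v ∈ A.unr σ, cond v (loc (some v) (cls σ)) = 0
  cond_ind : ∀ τ v, v ∉ Ram → cond v (loc (some v) (ind (cls' τ))) = 0 →
    ∀ w ∈ above v, w ∈ Unr τ
  cond_le : ∀ v d, ∃ N, ∀ τ, A'.deg τ ≤ d → (∀ w ∈ above v, w ∈ Unr τ) →
    cond v (loc (some v) (ind (cls' τ))) ≤ N
  /-- The unramified parameters are given by the Satake parameters. -/
  loc_eq : ∀ (τ : A'.Cusp) (P : Multiset A.Cusp) (v : A.Place), v ∉ Ram →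
    (∀ w ∈ above v, w ∈ A'.unr τ) → (∀ σ ∈ P, v ∈ A.unr σ) →
    params A.toGLSide P v = ∑ w ∈ above v, rt (res w) (A'.par τ w) →
    loc (some v) (P.map cls).sum = loc (some v) (ind (cls' τ))
  /-- Two Hecke characters of `K` which agree at almost all places are equal. -/
  det_eq : ∀ (τ : A'.Cusp) (P : Multiset A.Cusp) (S : Finset (Option A.Place)),
    (∀ v ∉ S, loc v (P.map cls).sum = loc v (ind (cls' τ))) →
    ∀ v, det v (loc v (P.map cls).sum) = det v (loc v (ind (cls' τ)))
  /-- The functional equations of `L(s, P ⊗ η)` and of `L(s, τ ⊗ η_K')` (Godement-Jacquet), for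
  two functions with the same Euler factors outside `S`. -/
  fe : ∀ (τ : A'.Cusp) (P : Multiset A.Cusp) (S : Finset (Option A.Place)),
    (∀ v ∉ S, loc v (P.map cls).sum = loc v (ind (cls' τ))) →
    ∀ η, ∏ v ∈ S, gam v (loc v (ch η * (P.map cls).sum)) =
      ∏ v ∈ S, gam v (loc v (ch η * ind (cls' τ)))
  /-- The complete `L`-functions `L(s, a)` and `L(s, a^∨)` converge for large `Re s`, extend to
  entire functions which are bounded in vertical strips, and satisfy the functional equation
  `L(s, a) = ε(s, a) L(1 - s, a^∨)`. -/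
  Nice : D → Prop
  Nice' : D' → Prop
  nice_zero : Nice 0
  nice_add : ∀ a b, Nice a → Nice b → Nice (a + b)
  nice_same : ∀ a b, (∀ v, Same v (loc v a) (loc v b)) → Nice a → Nice b
  /-- `L`- and `ε`-factors are inductive. -/
  nice_ind : ∀ b, Nice (ind b) → Nice' b
  /-- Jacquet-Piatetski-Shapiro-Shalika, Gelbart-Shahidi: `L(s, (π ⊗ η) × σ)` is nice (there is
  no pole, since `σ ⊗ η` is ramified at `v` and the dual of `π` is not). -/
  rankin : ∀ π σ η v, v ∈ A.unr π → v ∈ A.unr σ → hl η (some v) ∈ ram v →
    Nice (cls π * ch η * cls σ)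
  /-- The converse theorem of Cogdell and Piatetski-Shapiro over `K'` for the base change of a
  cuspidal representation `π` over `K`, for the twists by `τ ⊗ η_K'` for a fixed Hecke character
  `η` of `K` and all `τ` which are unramified above `S`. -/
  converse : ∀ π (S : Finset A.Place) (η : HChr), (∀ v ∉ S, v ∈ A.unr π) →
    (∀ τ, A'.deg τ < A.deg π → A'.expo τ = 0 → (∀ v ∈ S, ∀ w ∈ above v, w ∈ Unr τ) →
      Nice' (rs (cls π * ch η) * cls' τ)) →
    ∃ Q : Multiset A'.Cusp, ∀ w, below w ∉ S → below w ∉ Ram →
      (∀ τ ∈ Q, w ∈ A'.unr τ) ∧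
        params A'.toGLSide Q w = (A.par π (below w)).map fun a => a ^ res w
  /-- Restriction of scalars from `K'` to `K` of the representation `τ` of `GL(m)`, with the
  representation of its `L`-group induced by the standard representation. -/
  restriction_gl : ∀ τ : A'.Cusp, ∃ (π : B.Rep) (κ : Type) (_ : Fintype κ) (_ : DecidableEq κ),
    ∃ ρ ∈ B.alg π κ, ∀ v, v ∉ Ram → (∀ w ∈ above v, w ∈ Unr τ) →
      v ∈ B.U π ∧ (ρ (B.c π v)).charpoly.roots = ∑ w ∈ above v, rt (res w) (A'.par τ w)
  /-- Restriction of scalars from `K'` to `K` of the representation `π' ⊠ χ` of `G' × GL(1)`, with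
  the representation of its `L`-group induced by `ρ' ⊗ χ`. -/
  restriction : ∀ (π' : B'.Rep) (χ : Chr) (ι : Type) [Fintype ι] [DecidableEq ι],
    ∀ ρ' ∈ B'.alg π' ι, ∃ (π : B.Rep) (κ : Type) (_ : Fintype κ) (_ : DecidableEq κ),
      ∃ ρ ∈ B.alg π κ, ∀ v, v ∉ Ram → (∀ w ∈ above v, w ∈ B'.U π' ∩ cunr χ) →
        v ∈ B.U π ∧ (ρ (B.c π v)).charpoly.roots =
          ∑ w ∈ above v, rt (res w)
            ((ρ' (B'.c π' w)).charpoly.roots.map fun a => val χ w * a)

attribute [instance] OverQ.semiD OverQ.semiD'

variable {A A' : RamSide} {B : LSide A.toGLSide} {B' : LSide A'.toGLSide}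

/-- The places `w` of `K'` over a place of `K` which is unramified in `K'` and over which `π'` is
unramified. -/
def OverQ.Good (E : OverQ A A' B B') (π' : B'.Rep) : Set A'.Place :=
  {w | E.below w ∉ E.Ram ∧ ∀ w' ∈ E.above (E.below w), w' ∈ B'.U π'}

end Pool.H81.FX
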