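import Mathlib
import Pool.Agent.H81.FX.RealDefs

/-!
Unitary generic representations of `GL(n, ℝ)` are determined by the `L`-factors of `a` and of
`sgn ⊗ a`.
-/

namespace Pool.H81.FX

namespace RealIrr

theorem cdual_cdual (x : RealIrr) : x.cdual.cdual = x := by
  cases x <;> simp [cdual]

theorem cdual_inj : Function.Injective cdual := fun x y h => by
  rw [← cdual_cdual x, h, cdual_cdual]

theorem expo_cdual (x : RealIrr) : x.cdual.expo.re = -x.expo.re := by
  cases x <;> simp [cdual, expo]

end RealIrr

open RealIrr

/-- The class of the sums of unitary generic type. -/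
def Herm (a : Multiset RealIrr) : Prop :=
  a.map cdual = a ∧ ∀ x ∈ a, |x.expo.re| < 1 / 2

theorem Herm.cdual_mem {a : Multiset RealIrr} (h : Herm a) {x : RealIrr} (hx : x ∈ a) :
    x.cdual ∈ a := by
  rw [← h.1]
  exact Multiset.mem_map_of_mem _ hx

/-- Removing a constituent and its conjugate dual. -/
theorem Herm.remove {a b : Multiset RealIrr} (ha : Herm a) (hb : Herm b) {x : RealIrr}
    (hxa : x ∈ a) (hxb : x ∈ b) : ∃ (u a' b' : Multiset RealIrr), x ∈ u ∧ a = u + a' ∧ b = u + b' ∧
      Herm a' ∧ Herm b' := by
  classical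
  have key : ∀ (u : Multiset RealIrr), u.map cdual = u → ∀ c, Herm (u + c) → Herm c := by
    intro u hu c hc
    refine ⟨?_, fun y hy => hc.2 y (Multiset.mem_add.2 (Or.inr hy))⟩
    have h1 := hc.1
    rw [Multiset.map_add, hu] at h1
    exact add_left_cancel h1
  by_cases hx : x.cdual = x
  · obtain ⟨a', rfl⟩ := Multiset.exists_cons_of_mem hxa
    obtain ⟨b', rfl⟩ := Multiset.exists_cons_of_mem hxb
    rw [← Multiset.singleton_add] at ha hb
    have hu : ({x} : Multiset RealIrr).map cdual = {x} := by rw [Multiset.map_singleton, hx]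
    exact ⟨{x}, a', b', Multiset.mem_singleton_self x, (Multiset.singleton_add _ _).symm,
      (Multiset.singleton_add _ _).symm, key _ hu _ ha, key _ hu _ hb⟩
  · have h1 : ∀ c : Multiset RealIrr, Herm c → x ∈ c → ∃ c', c = {x, x.cdual} + c' := by
      intro c hc hxc
      have h2 := hc.cdual_mem hxc
      obtain ⟨c', rfl⟩ := Multiset.exists_cons_of_mem hxc
      obtain ⟨c'', rfl⟩ := Multiset.exists_cons_of_mem
        ((Multiset.mem_cons.1 h2).resolve_left hx)
      refine ⟨c'', ?_⟩
      simp [Multiset.insert_eq_cons]
    obtain ⟨a', ha'⟩ := h1 a ha hxa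
    obtain ⟨b', hb'⟩ := h1 b hb hxb
    have hu : ({x, x.cdual} : Multiset RealIrr).map cdual = {x, x.cdual} := by
      simp only [Multiset.insert_eq_cons, Multiset.map_cons, Multiset.map_singleton, cdual_cdual]
      exact Multiset.pair_comm _ _
    rw [ha'] at ha
    rw [hb'] at hb
    exact ⟨{x, x.cdual}, a', b', by simp, ha', hb', key _ hu _ ha, key _ hu _ hb⟩

/-- A character in `a` lies in `b`. -/
theorem mem_of_chr {a b : Multiset RealIrr} (ha : Herm a) (hb : Herm b)
    (h1 : a.bind shifts = b.bind shifts)
    (h2 : (a.map sgn).bind shifts = (b.map sgn).bind shifts) {ε : Bool} {t : ℂ}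
    (h : chr ε t ∈ a) : chr ε t ∈ b := by
  have key : ∀ t : ℂ, t.re ≤ 0 → chr ε t ∈ a → chr ε t ∈ b := by
    intro t ht h
    have hre : ∀ k : ℕ, (((k : ℂ) + 1) / 2).re = ((k : ℝ) + 1) / 2 := by
      intro k
      have : (((k : ℂ) + 1) / 2) = (((k : ℝ) + 1) / 2 : ℝ) := by push_cast; ring
      rw [this, Complex.ofReal_re]
    cases ε with
    | false =>
      have h3 : t ∈ a.bind shifts := Multiset.mem_bind.2 ⟨_, h, by simp [shifts]⟩
      rw [h1] at h3
      obtain ⟨y, hy, hty⟩ := Multiset.mem_bind.1 h3
      have hb2 := abs_lt.1 (hb.2 y hy)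
      cases y with
      | chr ε' t' =>
        cases ε' with
        | false =>
          have : t = t' := by simpa [shifts] using hty
          rw [this]; exact hy
        | true =>
          have h4 : t = t' + 1 := by simpa [shifts] using hty
          have h5 := congrArg Complex.re h4
          simp only [Complex.add_re, Complex.one_re, expo] at h5 hb2
          linarith [hb2.1]
      | ind k t' =>
        have h4 : t = t' + ((k : ℂ) + 1) / 2 ∨ t = t' + ((k : ℂ) + 1) / 2 + 1 := by
          simpa [shifts] using hty
        have hk : (0 : ℝ) ≤ k := Nat.cast_nonneg k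
        rcases h4 with h4 | h4
        · have h5 := congrArg Complex.re h4
          rw [Complex.add_re, hre] at h5
          simp only [expo] at hb2
          linarith [hb2.1]
        · have h5 := congrArg Complex.re h4
          rw [Complex.add_re, Complex.add_re, hre, Complex.one_re] at h5
          simp only [expo] at hb2
          linarith [hb2.1]
    | true =>
      have h3 : t ∈ (a.map sgn).bind shifts :=
        Multiset.mem_bind.2 ⟨_, Multiset.mem_map_of_mem _ h, by simp [shifts, sgn]⟩
      rw [h2] at h3
      obtain ⟨z, hz, hty⟩ := Multiset.mem_bind.1 h3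
      obtain ⟨y, hy, rfl⟩ := Multiset.mem_map.1 hz
      have hb2 := abs_lt.1 (hb.2 y hy)
      cases y with
      | chr ε' t' =>
        cases ε' with
        | true =>
          have : t = t' := by simpa [shifts, sgn] using hty
          rw [this]; exact hy
        | false =>
          have h4 : t = t' + 1 := by simpa [shifts, sgn] using hty
          have h5 := congrArg Complex.re h4
          simp only [Complex.add_re, Complex.one_re, expo] at h5 hb2
          linarith [hb2.1]
      | ind k t' =>
        have h4 : t = t' + ((k : ℂ) + 1) / 2 ∨ t = t' + ((k : ℂ) + 1) / 2 + 1 := by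
          simpa [shifts, sgn] using hty
        have hk : (0 : ℝ) ≤ k := Nat.cast_nonneg k
        rcases h4 with h4 | h4
        · have h5 := congrArg Complex.re h4
          rw [Complex.add_re, hre] at h5
          simp only [expo] at hb2
          linarith [hb2.1]
        · have h5 := congrArg Complex.re h4
          rw [Complex.add_re, Complex.add_re, hre, Complex.one_re] at h5
          simp only [expo] at hb2
          linarith [hb2.1]
  by_cases ht : t.re ≤ 0
  · exact key t ht h
  · have h3 := key (-(starRingEnd ℂ) t) (by simp; linarith) (ha.cdual_mem h)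
    have h4 := hb.cdual_mem h3
    simpa [cdual] using h4

/-- The smallest real part of a shift. -/
noncomputable def low : RealIrr → ℝ
  | chr _ t => t.re
  | ind k t => t.re + ((k : ℝ) + 1) / 2

theorem low_cdual_ind {k : ℕ} {t : ℂ} :
    low (cdual (ind k t)) = -t.re + ((k : ℝ) + 1) / 2 := by
  simp [low, cdual]

/-- A lowest constituent in `a` lies in `b`. -/
theorem mem_of_ind {a b : Multiset RealIrr} (ha : Herm a) (hb : Herm b)
    (h1 : a.bind shifts = b.bind shifts) (hn : ∀ ε t, chr ε t ∉ b) {k : ℕ} {t : ℂ}
    (h : ind k t ∈ a) (hla : ∀ y ∈ a, low (ind k t) ≤ low y)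
    (hlb : ∀ y ∈ b, low (ind k t) ≤ low y) : ind k t ∈ b := by
  have hre : ∀ k : ℕ, (((k : ℂ) + 1) / 2).re = ((k : ℝ) + 1) / 2 := by
    intro k
    have : (((k : ℂ) + 1) / 2) = (((k : ℝ) + 1) / 2 : ℝ) := by push_cast; ring
    rw [this, Complex.ofReal_re]
  have ht : t.re ≤ 0 := by
    have h2 := hla _ (ha.cdual_mem h)
    rw [low_cdual_ind] at h2
    simp only [low] at h2
    linarith
  have ht2 := abs_lt.1 (ha.2 _ h)
  simp only [expo] at ht2
  have h3 : t + ((k : ℂ) + 1) / 2 ∈ a.bind shifts :=
    Multiset.mem_bind.2 ⟨_, h, by simp [shifts]⟩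
  rw [h1] at h3
  obtain ⟨y, hy, hty⟩ := Multiset.mem_bind.1 h3
  have hb2 := abs_lt.1 (hb.2 y hy)
  have hly := hlb y hy
  cases y with
  | chr ε t' => exact absurd hy (hn ε t')
  | ind k' t' =>
    have hly2 := hlb _ (hb.cdual_mem hy)
    rw [low_cdual_ind] at hly2
    simp only [low] at hly hly2
    simp only [expo] at hb2
    have h4 : t + ((k : ℂ) + 1) / 2 = t' + ((k' : ℂ) + 1) / 2 ∨
        t + ((k : ℂ) + 1) / 2 = t' + ((k' : ℂ) + 1) / 2 + 1 := by
      simpa [shifts] using hty
    rcases h4 with h4 | h4
    · have h5 := congrArg Complex.re h4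
      rw [Complex.add_re, Complex.add_re, hre, hre] at h5
      have h6 : k = k' := by
        have a1 : (k : ℝ) < k' + 1 := by linarith
        have a2 : (k' : ℝ) < k + 1 := by linarith
        have a3 : k < k' + 1 := by exact_mod_cast a1
        have a4 : k' < k + 1 := by exact_mod_cast a2
        omega
      subst h6
      have h7 : t = t' := add_right_cancel h4
      rw [h7]
      exact hy
    · have h5 := congrArg Complex.re h4
      rw [Complex.add_re, Complex.add_re, Complex.add_re, hre, hre, Complex.one_re] at h5
      linarith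

/-- **Theorem.**  A sum of unitary generic type is determined by the `L`-factors of `a` and of
`sgn ⊗ a`. -/
theorem eq_of_shifts : ∀ (n : ℕ) (a b : Multiset RealIrr), a.card + b.card ≤ n → Herm a →
    Herm b → a.bind shifts = b.bind shifts →
    (a.map sgn).bind shifts = (b.map sgn).bind shifts → a = b := by
  classical
  intro n
  induction n with
  | zero =>
    intro a b h _ _ _ _
    rw [Multiset.card_eq_zero.1 (by omega : a.card = 0),
      Multiset.card_eq_zero.1 (by omega : b.card = 0)]
  | succ n ih =>
    intro a b hn ha hb h1 h2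
    -- it is enough to find a common element
    have key : (∃ x, x ∈ a ∧ x ∈ b) → a = b := by
      rintro ⟨x, hxa, hxb⟩
      obtain ⟨u, a', b', hu, rfl, rfl, ha', hb'⟩ := ha.remove hb hxa hxb
      have hcu : 0 < u.card := Multiset.card_pos_iff_exists_mem.2 ⟨x, hu⟩
      rw [Multiset.card_add, Multiset.card_add] at hn
      rw [Multiset.add_bind, Multiset.add_bind] at h1
      rw [Multiset.map_add, Multiset.map_add, Multiset.add_bind, Multiset.add_bind] at h2
      rw [ih a' b' (by omega) ha' hb' (add_left_cancel h1) (add_left_cancel h2)]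
    by_cases hc : ∃ ε t, chr ε t ∈ a
    · obtain ⟨ε, t, h⟩ := hc
      exact key ⟨_, h, mem_of_chr ha hb h1 h2 h⟩
    by_cases hc' : ∃ ε t, chr ε t ∈ b
    · obtain ⟨ε, t, h⟩ := hc'
      exact key ⟨_, mem_of_chr hb ha h1.symm h2.symm h, h⟩
    push Not at hc hc'
    by_cases h0 : a + b = 0
    · have h3 := congrArg Multiset.card h0
      rw [Multiset.card_add, Multiset.card_zero] at h3
      rw [Multiset.card_eq_zero.1 (by omega : a.card = 0),
        Multiset.card_eq_zero.1 (by omega : b.card = 0)]
    · obtain ⟨x, hx, hmin⟩ := Finset.exists_min_image (a + b).toFinset low (by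
        rw [Multiset.toFinset_nonempty]
        exact h0)
      rw [Multiset.mem_toFinset] at hx
      have hla : ∀ y ∈ a, low x ≤ low y := fun y hy =>
        hmin y (Multiset.mem_toFinset.2 (Multiset.mem_add.2 (Or.inl hy)))
      have hlb : ∀ y ∈ b, low x ≤ low y := fun y hy =>
        hmin y (Multiset.mem_toFinset.2 (Multiset.mem_add.2 (Or.inr hy)))
      rcases Multiset.mem_add.1 hx with h | h
      · cases x with
        | chr ε t => exact absurd h (hc ε t)
        | ind k t => exact key ⟨_, h, mem_of_ind ha hb h1 hc' h hla hlb⟩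
      · cases x with
        | chr ε t => exact absurd h (hc' ε t)
        | ind k t => exact key ⟨_, mem_of_ind hb ha h1.symm hc h hlb hla, h⟩

end Pool.H81.FX
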