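import Mathlib
import Pool.Agent.H81.FX.Gen
import Pool.Agent.H81.FX.DefsQ
import Pool.Agent.H81.FX.Core
import Pool.Agent.H81.FX.Real

/-!
Base change from automorphic induction at the unramified places.
-/

namespace Pool.H81.FX

open Pool.H73.Func Pool.H23.Stab Pool.H23.Base Filter Topology

variable {A A' : RamSide} {B : LSide A.toGLSide} {B' : LSide A'.toGLSide}

/-- `P` is the automorphic induction of `τ` at the unramified places. -/
def OverQ.IsWeak (E : OverQ A A' B B') (τ : A'.Cusp) (P : Multiset A.Cusp) : Prop :=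
  ∀ v, v ∉ E.Ram → (∀ w ∈ E.above v, w ∈ E.Unr τ) → (∀ σ ∈ P, v ∈ A.unr σ) ∧
    params A.toGLSide P v = ∑ w ∈ E.above v, rt (E.res w) (A'.par τ w)

theorem exists_weak (E : OverQ A A' B B') (h : Functoriality B) (τ : A'.Cusp) :
    ∃ P : Multiset A.Cusp, E.IsWeak τ P := by
  obtain ⟨π, κ, _, _, ρ, hρ, hres⟩ := E.restriction_gl τ
  obtain ⟨P, -, hP⟩ := h π κ ρ hρ
  refine ⟨P, fun v hv hw => ?_⟩
  obtain ⟨h1, h2⟩ := hres v hv hw
  obtain ⟨h3, h4⟩ := hP v h1
  exact ⟨h3, h4.trans h2⟩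

theorem bad_finite (E : FinExt A A') (τ : A'.Cusp) :
    (E.Ram ∪ E.below '' (A'.unr τ)ᶜ).Finite :=
  E.ram_finite.union ((A'.unr_cofinite τ).image _)

theorem good_of (E : FinExt A A') {τ : A'.Cusp} {v : A.Place}
    (hv : v ∉ E.Ram ∪ E.below '' (A'.unr τ)ᶜ) : v ∉ E.Ram ∧ ∀ w ∈ E.above v, w ∈ A'.unr τ := by
  rw [Set.mem_union, not_or] at hv
  refine ⟨hv.1, fun w hw => ?_⟩
  by_contra hn
  exact hv.2 ⟨w, hn, (E.mem_above v w).1 hw⟩

theorem expo_weak (E : OverQ A A' B B') {τ : A'.Cusp} (hτ : A'.expo τ = 0)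
    {P : Multiset A.Cusp} (hP : E.IsWeak τ P) : ∀ σ ∈ P, A.expo σ = 0 := by
  obtain ⟨v, hv⟩ := exists_place (A := A) (E.Ram ∪ E.below '' (A'.unr τ)ᶜ)ᶜ
    (by rw [compl_compl]; exact bad_finite E.toFinExt τ)
  obtain ⟨hv1, hun⟩ := good_of E.toFinExt hv
  obtain ⟨h1, h2⟩ := hP v hv1 fun w hw => ((E.unr_iff τ w).1 (hun w hw)).1
  apply expo_zero A P v h1
  intro a ha
  rw [h2] at ha
  obtain ⟨w, hw, ha⟩ := mem_fsum ha
  have h3 := A'.par_norm _ w (hun w hw) _ ((mem_rt (E.res_pos w)).1 ha)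
  rw [hτ, Real.rpow_zero, norm_pow] at h3
  exact (pow_eq_one_iff_of_nonneg (norm_nonneg _) (by have := E.res_pos w; omega)).1 h3

/-- The Ramanujan conjecture for `τ` above `v`, since its automorphic induction satisfies it. -/
theorem unr_of_Unr (E : OverQ A A' B B') {τ : A'.Cusp} (hτ : A'.expo τ = 0)
    {P : Multiset A.Cusp} (hP : E.IsWeak τ P) (v : A.Place) (hv : v ∉ E.Ram)
    (hw : ∀ w ∈ E.above v, w ∈ E.Unr τ) : ∀ w ∈ E.above v, w ∈ A'.unr τ := by
  intro w hwv
  obtain ⟨h1, h2⟩ := hP v hv hw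
  refine (E.unr_iff τ w).2 ⟨hw w hwv, fun a ha => ?_⟩
  obtain ⟨z, hz⟩ := exists_root (E.res_pos w) a
  have h3 : z ∈ params A.toGLSide P v := by
    rw [h2, Multiset.mem_sum]
    refine ⟨w, hwv, ?_⟩
    rw [mem_rt (E.res_pos w), hz]
    exact ha
  obtain ⟨Z, hZ, haZ⟩ := Multiset.mem_join.1
    (show z ∈ (P.map fun σ => A.par σ v).join from h3)
  obtain ⟨σ, hσ, rfl⟩ := Multiset.mem_map.1 hZ
  rw [← hz, norm_pow, A.par_norm σ v (h1 σ hσ) z haZ, expo_weak E hτ hP σ hσ, hτ,
    Real.rpow_zero, Real.rpow_zero, one_pow]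

theorem exists_close (E : OverQ A A' B B') {τ : A'.Cusp} {P : Multiset A.Cusp}
    (hP : E.IsWeak τ P) : ∃ S : Finset (Option A.Place), ∀ v ∉ S,
      E.loc v (P.map E.cls).sum = E.loc v (E.ind (E.cls' τ)) := by
  classical
  refine ⟨insert none ((bad_finite E.toFinExt τ).toFinset.image some), ?_⟩
  intro v hv
  rcases v with _ | v
  · exact absurd (Finset.mem_insert_self _ _) hv
  · obtain ⟨h1, h2⟩ := good_of E.toFinExt (τ := τ) (v := v) (by
      intro hn
      apply hv
      rw [Finset.mem_insert, Finset.mem_image]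
      exact Or.inr ⟨v, (Set.Finite.mem_toFinset _).2 hn, rfl⟩)
    obtain ⟨h3, h4⟩ := hP v h1 fun w hw => ((E.unr_iff τ w).1 (h2 w hw)).1
    exact E.loc_eq τ P v h1 h2 h3 h4

/-- Comparison of the functional equations. -/
theorem gam_one (E : OverQ A A' B B') {τ : A'.Cusp} {P : Multiset A.Cusp}
    {S : Finset (Option A.Place)}
    (hS : ∀ v ∉ S, E.loc v (P.map E.cls).sum = E.loc v (E.ind (E.cls' τ)))
    (v₀ : Option A.Place) (f : ∀ v, E.LChr v)
    (hf : ∀ v ∈ S, v ≠ v₀ → E.gam v (E.lc v (f v) * E.loc v (P.map E.cls).sum) =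
      E.gam v (E.lc v (f v) * E.loc v (E.ind (E.cls' τ)))) :
    E.gam v₀ (E.lc v₀ (f v₀) * E.loc v₀ (P.map E.cls).sum) =
      E.gam v₀ (E.lc v₀ (f v₀) * E.loc v₀ (E.ind (E.cls' τ))) := by
  classical
  by_cases h0 : v₀ ∈ S
  · obtain ⟨η, hη⟩ := E.grunwald S f
    have h1 := E.fe τ P S hS η
    have e : ∀ a : E.D, ∏ v ∈ S, E.gam v (E.loc v (E.ch η * a)) =
        ∏ v ∈ S, E.gam v (E.lc v (f v) * E.loc v a) := by
      intro a
      apply Finset.prod_congr rfl
      intro v hv
      rw [map_mul, E.loc_ch, hη v hv]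
    rw [e, e, ← Finset.mul_prod_erase S _ h0, ← Finset.mul_prod_erase S _ h0,
      Finset.prod_congr rfl fun v hv =>
        hf v (Finset.mem_of_mem_erase hv) (Finset.ne_of_mem_erase hv)] at h1
    exact mul_right_cancel h1
  · rw [hS v₀ h0]

theorem ug_sum (E : OverQ A A' B B') {P : Multiset A.Cusp} (hP : ∀ σ ∈ P, A.expo σ = 0)
    (v : Option A.Place) : E.loc v (P.map E.cls).sum ∈ E.UG v := by
  induction P using Multiset.induction_on with
  | empty =>
    rw [Multiset.map_zero, Multiset.sum_zero, map_zero]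
    exact E.zero_UG v
  | cons σ P ih =>
    rw [Multiset.map_cons, Multiset.sum_cons, map_add]
    exact E.add_UG v _ (E.ug_cls σ (hP σ (Multiset.mem_cons_self _ _)) v) _
      (ih fun τ hτ => hP τ (Multiset.mem_cons_of_mem hτ))

theorem cond_sum (E : OverQ A A' B B') {P : Multiset A.Cusp} {v : A.Place}
    (hP : ∀ σ ∈ P, v ∈ A.unr σ) : E.cond v (E.loc (some v) (P.map E.cls).sum) = 0 := by
  induction P using Multiset.induction_on with
  | empty =>
    rw [Multiset.map_zero, Multiset.sum_zero, map_zero]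
    exact E.cond_zero v
  | cons σ P ih =>
    rw [Multiset.map_cons, Multiset.sum_cons, map_add, E.cond_add,
      E.cond_cls σ v (hP σ (Multiset.mem_cons_self _ _)),
      ih fun τ hτ => hP τ (Multiset.mem_cons_of_mem hτ)]

/-- Unitary generic parameters at the real place are determined by their twisted gamma-factors. -/
theorem real_unique (E : Loc A) (a b : E.R none) (ha : a ∈ E.UG none) (hb : b ∈ E.UG none)
    (h : ∀ χ, E.gam none (E.lc none χ * a) = E.gam none (E.lc none χ * b)) : a = b := by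
  obtain ⟨χ, hχ⟩ := E.real_sgn
  apply E.real_inj
  apply eq_of_shifts _ _ _ le_rfl (E.real_UG a ha) (E.real_UG b hb)
  · apply E.real_gam a ha b hb
    have h1 := h 1
    rwa [map_one, one_mul, one_mul] at h1
  · rw [← hχ, ← hχ]
    exact E.real_gam _ (E.mul_UG _ χ a ha) _ (E.mul_UG _ χ b hb) (h χ)

/-- The automorphic induction is right at the real place. -/
theorem real_eq (E : OverQ A A' B B') {τ : A'.Cusp} (hτ : A'.expo τ = 0)
    {P : Multiset A.Cusp} (hP : E.IsWeak τ P) :
    E.loc none (P.map E.cls).sum = E.loc none (E.ind (E.cls' τ)) := by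
  classical
  obtain ⟨S, hS⟩ := exists_close E hP
  have hdet := E.det_eq τ P S hS
  choose g hg using fun v : A.Place => E.stable v _ _ (hdet (some v))
  apply real_unique E.toLoc _ _ (ug_sum E (expo_weak E hτ hP) none)
    (E.ug_ind τ hτ none)
  intro χ
  let f : ∀ v, E.LChr v := fun v => match v with
    | none => χ
    | some v => g v
  refine gam_one E hS none f ?_
  intro v _ hne
  rcases v with _ | v
  · exact absurd rfl hne
  · exact hg v

/-- The automorphic induction has the right twisted gamma-factors at all places. -/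
theorem gam_eq (E : OverQ A A' B B') {τ : A'.Cusp} (hτ : A'.expo τ = 0)
    {P : Multiset A.Cusp} (hP : E.IsWeak τ P) (v : A.Place) (χ : E.LChr (some v)) :
    E.gam (some v) (E.lc (some v) χ * E.loc (some v) (P.map E.cls).sum) =
      E.gam (some v) (E.lc (some v) χ * E.loc (some v) (E.ind (E.cls' τ))) := by
  classical
  obtain ⟨S, hS⟩ := exists_close E hP
  have hdet := E.det_eq τ P S hS
  choose g hg using fun v : A.Place => E.stable v _ _ (hdet (some v))
  let f0 : ∀ v, E.LChr v := fun v => match v with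
    | none => 1
    | some v => g v
  have h := gam_one E hS (some v) (Function.update f0 (some v) χ) (by
    intro u _ hne
    rw [Function.update_of_ne hne]
    rcases u with _ | u
    · rw [real_eq E hτ hP]
    · exact hg u)
  rwa [Function.update_self] at h

theorem cond_eq (E : OverQ A A' B B') {τ : A'.Cusp} (hτ : A'.expo τ = 0)
    {P : Multiset A.Cusp} (hP : E.IsWeak τ P) (v : A.Place) :
    E.cond v (E.loc (some v) (P.map E.cls).sum) =
      E.cond v (E.loc (some v) (E.ind (E.cls' τ))) := by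
  obtain ⟨S, hS⟩ := exists_close E hP
  have h1 := gam_eq E hτ hP v 1
  rw [map_one, one_mul, one_mul] at h1
  exact E.cond_gam v _ (ug_sum E (expo_weak E hτ hP) _) _ (E.ug_ind τ hτ _)
    (E.det_eq τ P S hS (some v)) h1

/-- The automorphic inductions exist, and are ramified where they should be. -/
theorem exists_ai (E : OverQ A A' B B') (h : Functoriality B) :
    ∃ ai : A'.Cusp → Multiset A.Cusp, IsAI E.toFinExt ai := by
  choose ai hai using exists_weak E h
  have key : ∀ θ v, v ∉ E.Ram → (∀ w ∈ E.above v, w ∈ A'.unr θ) →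
      (∀ σ ∈ ai θ, v ∈ A.unr σ) ∧ params A.toGLSide (ai θ) v =
        ∑ w ∈ E.above v, rt (E.res w) (A'.par θ w) := fun θ v hv hw =>
    hai θ v hv fun w hwv => ((E.unr_iff θ w).1 (hw w hwv)).1
  refine ⟨ai, fun θ hθ v hv => ⟨⟨?_, fun hw => (key θ v hv hw).1⟩, fun hw => (key θ v hv hw).2⟩⟩
  intro hσ
  apply unr_of_Unr E hθ (hai θ) v hv
  apply E.cond_ind θ v hv
  rw [← cond_eq E hθ (hai θ) v]
  exact cond_sum E hσ

theorem nice_sum (E : OverQ A A' B B') (π : A.Cusp) (η : E.HChr) (v : A.Place)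
    (hv : v ∈ A.unr π) (hη : E.hl η (some v) ∈ E.ram v) (P : Multiset A.Cusp)
    (h : ∀ σ ∈ P, v ∈ A.unr σ) : E.Nice (E.cls π * E.ch η * (P.map E.cls).sum) := by
  induction P using Multiset.induction_on with
  | empty =>
    rw [Multiset.map_zero, Multiset.sum_zero, mul_zero]
    exact E.nice_zero
  | cons σ P ih =>
    rw [Multiset.map_cons, Multiset.sum_cons, mul_add]
    exact E.nice_add _ _ (E.rankin π σ η v hv (h σ (Multiset.mem_cons_self _ _)) hη)
      (ih fun τ hτ => h τ (Multiset.mem_cons_of_mem hτ))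

/-- Base change of a cuspidal representation, away from one place. -/
theorem bc_offQ (E : OverQ A A' B B') (h : Functoriality B) (π : A.Cusp) (v₁ : A.Place)
    (hv₁ : v₁ ∈ A.unr π) (hR : v₁ ∉ E.Ram) :
    ∃ Q : Multiset A'.Cusp, ∀ w, w ∉ E.above v₁ → E.below w ∉ E.Ram → E.below w ∈ A.unr π →
      (∀ τ ∈ Q, w ∈ A'.unr τ) ∧
        params A'.toGLSide Q w = (A.par π (E.below w)).map fun a => a ^ E.res w := by
  classical
  set S : Finset A.Place := insert v₁ (A.unr_cofinite π).toFinset with hS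
  have hS1 : v₁ ∈ S := Finset.mem_insert_self _ _
  have hS2 : ∀ v, v ∉ A.unr π → v ∈ S := fun v hv =>
    Finset.mem_insert_of_mem ((Set.Finite.mem_toFinset _).2 hv)
  choose N hN using fun v => E.cond_le v (A.deg π)
  choose χ hχ using fun v : A.Place => E.stable_cond v (E.loc (some v) (E.cls π)) (N v)
  choose χ₁ hχ₁ using E.ram_nonempty
  let f : ∀ v, E.LChr v := fun v => match v with
    | none => 1
    | some v => if v ∈ A.unr π then χ₁ v else χ v
  obtain ⟨η, hη⟩ := E.grunwald (S.image some) f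
  have hη1 : E.hl η (some v₁) ∈ E.ram v₁ := by
    rw [hη _ (Finset.mem_image_of_mem _ hS1)]
    show (if v₁ ∈ A.unr π then χ₁ v₁ else χ v₁) ∈ E.ram v₁
    rw [if_pos hv₁]
    exact hχ₁ v₁
  have hη2 : ∀ v, v ∉ A.unr π → E.hl η (some v) = χ v := by
    intro v hv
    rw [hη _ (Finset.mem_image_of_mem _ (hS2 v hv))]
    show (if v ∈ A.unr π then χ₁ v else χ v) = χ v
    rw [if_neg hv]
  obtain ⟨Q, hQ⟩ := E.converse π S η (fun v hv => by
    by_contra hn
    exact hv (hS2 v hn)) (by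
    intro τ hdeg hτ hunr
    obtain ⟨P, hP⟩ := exists_weak E h τ
    apply E.nice_ind
    rw [E.proj]
    refine E.nice_same (E.cls π * E.ch η * (P.map E.cls).sum) _ ?_
      (nice_sum E π η v₁ hv₁ hη1 P (hP v₁ hR (hunr v₁ hS1)).1)
    intro v
    simp only [map_mul, E.loc_ch, mul_assoc]
    obtain ⟨T, hT⟩ := exists_close E hP
    have hdet := E.det_eq τ P T hT
    rcases v with _ | v
    · rw [real_eq E hτ hP]
      exact E.same_refl _ _
    · by_cases hv : v ∈ A.unr π
      · apply E.same_gam v _ (E.cond_cls π v hv)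
        · exact E.mul_UG _ _ _ (ug_sum E (expo_weak E hτ hP) _)
        · exact E.mul_UG _ _ _ (E.ug_ind τ hτ _)
        · exact E.det_mul _ _ _ _ (hdet _)
        · exact gam_eq E hτ hP v _
      · rw [hη2 v hv]
        have h1 := hN v τ hdeg.le (hunr v (hS2 v hv))
        exact hχ v _ _ (hdet _) (by rw [cond_eq E hτ hP v]; exact h1) h1)
  refine ⟨Q, fun w h1 h2 h3 => hQ w ?_ h2⟩
  intro hn
  rcases Finset.mem_insert.1 hn with h4 | h4
  · exact h1 ((E.mem_above _ _).2 h4)
  · exact (Set.Finite.mem_toFinset _).1 h4 h3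

/-- **Base change** of isobaric sums. -/
theorem baseChangeQ (E : OverQ A A' B B') (h : Functoriality B) (P : Multiset A.Cusp) :
    ∃ Q : Multiset A'.Cusp, E.IsBaseChange P Q :=
  bc_isobaric E.toFinExt (fun π v hv hR => bc_offQ E h π v hv hR) P

end Pool.H81.FX
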