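import Mathlib
import Pool.Agent.H81.FX.Core
import Pool.Agent.H23.Base.Main

/-!
The local parameters are determined by the inductions of their twists.
-/

namespace Pool.H81.FX

open Pool.H73.Func Pool.H23.Stab Pool.H23.Base Filter Topology

variable {A A' : RamSide}

/-- The parameters at the places above `v` are determined by the inductions of their twists. -/
theorem eq_of_twists (E : FinExt A A') (v : A.Place) (X Y : A'.Place → Multiset ℂ)
    (h : ∀ χ : E.Chr, (∀ w ∈ E.above v, w ∈ E.cunr χ) →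
      ∑ w ∈ E.above v, rt (E.res w) ((X w).map fun a => E.val χ w * a) =
      ∑ w ∈ E.above v, rt (E.res w) ((Y w).map fun a => E.val χ w * a))
    (hX : ∀ w ∈ E.above v, ∀ a ∈ X w, a ≠ 0) (hY : ∀ w ∈ E.above v, ∀ a ∈ Y w, a ≠ 0) :
    ∀ w ∈ E.above v, X w = Y w := by
  classical
  intro w hw
  set R : Multiset ℂ := ∑ u ∈ (E.above v).erase w, rt (E.res u) (X u) with hR
  set R' : Multiset ℂ := ∑ u ∈ (E.above v).erase w, rt (E.res u) (Y u) with hR'
  set S : Set ℂ := ((X w).toFinset ×ˢ R'.toFinset).image (fun p : ℂ × ℂ => p.2 ^ E.res w / p.1) ∪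
    ((Y w).toFinset ×ˢ R.toFinset).image (fun p : ℂ × ℂ => p.2 ^ E.res w / p.1) with hS
  obtain ⟨χ, h1, h2⟩ := E.sep w S ((Finset.finite_toSet _).union (Finset.finite_toSet _))
  rw [(E.mem_above v w).1 hw] at h1
  have h3 := h χ fun u hu => (h1 u hu).1
  rw [← Finset.add_sum_erase _ _ hw, ← Finset.add_sum_erase _ _ hw] at h3
  have e1 : ∀ Z : A'.Place → Multiset ℂ,
      ∑ u ∈ (E.above v).erase w, rt (E.res u) ((Z u).map fun a => E.val χ u * a)
        = ∑ u ∈ (E.above v).erase w, rt (E.res u) (Z u) := by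
    intro Z
    apply Finset.sum_congr rfl
    intro u hu
    rw [(h1 u (Finset.mem_of_mem_erase hu)).2 (Finset.ne_of_mem_erase hu)]
    simp
  rw [e1 X, e1 Y] at h3
  have hu : E.val χ w ≠ 0 := by
    intro h0
    have := E.norm_val χ w (h1 w hw).1
    rw [h0, norm_zero] at this
    exact zero_ne_one this
  refine cancel_rt (E.res_pos w) hu h3 ?_ ?_
  · intro a ha z hz hza
    apply h2
    left
    rw [Finset.coe_image]
    refine ⟨(a, z), ?_, ?_⟩
    · rw [Finset.mem_coe, Finset.mem_product, Multiset.mem_toFinset, Multiset.mem_toFinset]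
      exact ⟨ha, hz⟩
    · show z ^ E.res w / a = E.val χ w
      rw [hza, mul_div_assoc, div_self (hX w hw a ha), mul_one]
  · intro a ha z hz hza
    apply h2
    right
    rw [Finset.coe_image]
    refine ⟨(a, z), ?_, ?_⟩
    · rw [Finset.mem_coe, Finset.mem_product, Multiset.mem_toFinset, Multiset.mem_toFinset]
      exact ⟨ha, hz⟩
    · show z ^ E.res w / a = E.val χ w
      rw [hza, mul_div_assoc, div_self (hY w hw a ha), mul_one]

end Pool.H81.FX
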