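import Mathlib
import Pool.Agent.H81.FX.Local

/-!
Liftings over an arbitrary finite separable extension.
-/

namespace Pool.H81.FX

open Pool.H73.Func Pool.H23.Stab Pool.H23.Base Filter Topology

variable {A A' : RamSide} {E : FinExt A A'}

/-- The layers of the liftings are liftings of the layers. -/
theorem lifts_layer {V : Set A.Place} {X : A'.Place → Multiset ℂ} {P : E.Chr → Multiset A.Cusp}
    (h1 : ∀ χ, ∀ v ∈ VV E V χ, ∀ σ ∈ P χ, v ∈ A.unr σ)
    (h2 : ∀ χ, ∀ v ∈ VV E V χ, params A.toGLSide (P χ) v =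
      ∑ w ∈ E.above v, rt (E.res w) ((X w).map fun a => E.val χ w * a)) (r : ℝ) :
    Lifts E V (lay A' X r) fun χ => layer A (P χ) r where
  expo χ := expo_layer A _ r
  unr χ v hv := unr_layer A _ r v (h1 χ v hv)
  par χ v hv := by
    classical
    rw [params_layer A _ r v (h1 χ v hv), h2 χ v hv, filter_fsum, map_fsum]
    apply Finset.sum_congr rfl
    intro w hw
    have hnm : A'.nm w = A.nm v ^ E.res w := by rw [E.nm_below, (E.mem_above v w).1 hw]
    have hc : ((A.nm v ^ (-r) : ℝ) : ℂ) ^ E.res w = ((A'.nm w ^ (-r) : ℝ) : ℂ) := by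
      rw [hnm, ← Complex.ofReal_pow, ← Real.rpow_natCast (A.nm v ^ (-r)),
        ← Real.rpow_mul (nm_pos A v).le, mul_comm, Real.rpow_mul (nm_pos A v).le,
        Real.rpow_natCast]
    rw [filter_rt (E.res_pos w) _ r (nm_pos A v), mul_rt (E.res_pos w), hc, ← hnm]
    congr 1
    unfold lay
    rw [Multiset.filter_map, Multiset.map_map, Multiset.map_map]
    have e : (X w).filter ((fun α => ‖α‖ = A'.nm w ^ r) ∘ fun a => E.val χ w * a)
        = (X w).filter fun a => ‖a‖ = A'.nm w ^ r := by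
      apply Multiset.filter_congr
      intro a _
      simp only [Function.comp_apply, norm_mul, E.norm_val χ _ (hv.2 w hw), one_mul]
    rw [e]
    apply Multiset.map_congr rfl
    intro a _
    simp only [Function.comp_apply]
    ring

/-- **Main theorem on the side of `GL(n)`.** -/
theorem exists_lift (E : FinExt A A') {ai : A'.Cusp → Multiset A.Cusp} (hai : IsAI E ai)
    (hbc : ∀ P : Multiset A.Cusp, ∃ Q : Multiset A'.Cusp, E.IsBaseChange P Q)
    {V : Set A.Place} (hV : Vᶜ.Finite) (hR : ∀ v ∈ V, v ∉ E.Ram)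
    (X : A'.Place → Multiset ℂ) (n : ℕ) (hX : ∀ w, E.below w ∈ V → (X w).card ≤ n)
    (hT : ∀ χ : E.Chr, ∃ T : Multiset A.Cusp, ∀ v ∈ VV E V χ, (∀ σ ∈ T, v ∈ A.unr σ) ∧
      params A.toGLSide T v =
        ∑ w ∈ E.above v, rt (E.res w) ((X w).map fun a => E.val χ w * a)) :
    ∃ P : Multiset A'.Cusp, ∀ w, E.below w ∈ V → (∀ σ ∈ P, w ∈ A'.unr σ) ∧
      params A'.toGLSide P w = X w := by
  classical
  choose T' hT' using hT
  have hL : ∀ r, Lifts E V (lay A' X r) fun χ => layer A (T' χ) r := fun r =>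
    lifts_layer (fun χ v hv => (hT' χ v hv).1) (fun χ v hv => (hT' χ v hv).2) r
  have hex : ∀ r, ∃ C : Multiset A'.Cusp, (∀ σ ∈ C, A'.expo σ = 0) ∧
      Small A' (fun w => xx E V (lay A' X r) w - T A' C w) 0 := fun r =>
    exists_core hV hR (fun w hw => (card_lay_le X r w).trans (hX w hw))
      (fun w _ => norm_lay X r w) (hL r) hbc
  choose C hC0 hCs using hex
  have hP : ∀ r χ, layer A (T' χ) r = aim ai (C r) χ := fun r χ =>
    eq_aim hV hR (hL r) hai (C r) (hC0 r) (hCs r) χ
  have hV1 : ∀ v ∈ V, v ∈ VV E V 1 := fun v hv => ⟨hv, fun w _ => by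
    rw [E.cunr_one]; trivial⟩
  -- the constituents are unramified
  have hunr : ∀ r, ∀ v ∈ V, ∀ θ ∈ C r, ∀ w ∈ E.above v, w ∈ A'.unr θ := by
    intro r v hv θ hθ
    apply (hai θ (hC0 r θ hθ) v (hR v hv)).1.1
    intro σ hσ
    apply (hL r).unr 1 v (hV1 v hv) σ
    rw [hP r 1, aim]
    refine Multiset.mem_join.2 ⟨ai (E.tw 1 θ), Multiset.mem_map_of_mem _ hθ, ?_⟩
    rw [E.tw_one]
    exact hσ
  have hloc : ∀ r, ∀ v ∈ V, ∀ w ∈ E.above v, params A'.toGLSide (C r) w = lay A' X r w := by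
    intro r v hv w hw
    symm
    apply eq_of_twists E v (lay A' X r) (fun w => params A'.toGLSide (C r) w) _ _ _ w hw
    · intro χ hχ
      have hv2 : v ∈ VV E V χ := ⟨hv, hχ⟩
      rw [← (hL r).par χ v hv2, hP r χ]
      exact params_aim hai (C r) (hC0 r) χ v (hR v hv) hχ (hunr r v hv)
    · intro w _ a ha h0
      have h1 := norm_lay X r w a ha
      rw [h0, norm_zero] at h1
      exact zero_ne_one h1
    · intro w hw a ha h0
      obtain ⟨Z, hZ, haZ⟩ := Multiset.mem_join.1
        (show a ∈ ((C r).map fun σ => A'.par σ w).join from ha)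
      obtain ⟨σ, hσ, rfl⟩ := Multiset.mem_map.1 hZ
      have h1 := A'.par_norm σ w (hunr r v hv σ hσ w hw) a haZ
      rw [hC0 r σ hσ, Real.rpow_zero, h0, norm_zero] at h1
      exact zero_ne_one h1
  -- the total
  set E0 : Finset ℝ := ((T' 1).map A.expo).toFinset with hE0
  have hnorm : ∀ w, E.below w ∈ V → ∀ a ∈ X w, ∃ r ∈ E0, ‖a‖ = A'.nm w ^ r := by
    intro w hw a ha
    have h1 := (hT' 1 _ (hV1 _ hw))
    obtain ⟨z, hz⟩ := exists_root (E.res_pos w) a
    have h2 : z ∈ params A.toGLSide (T' 1) (E.below w) := by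
      rw [h1.2, Multiset.mem_sum]
      refine ⟨w, (E.mem_above _ _).2 rfl, ?_⟩
      rw [mem_rt (E.res_pos w), hz, Multiset.mem_map]
      exact ⟨a, ha, by rw [E.val_one, one_mul]⟩
    obtain ⟨Z, hZ, haZ⟩ := Multiset.mem_join.1
      (show z ∈ ((T' 1).map fun σ => A.par σ (E.below w)).join from h2)
    obtain ⟨σ, hσ, rfl⟩ := Multiset.mem_map.1 hZ
    refine ⟨A.expo σ, ?_, ?_⟩
    · rw [hE0, Multiset.mem_toFinset]
      exact Multiset.mem_map_of_mem _ hσ
    · rw [← hz, norm_pow, A.par_norm σ _ (h1.1 σ hσ) z haZ, E.nm_below,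
        ← Real.rpow_natCast (A.nm (E.below w) ^ A.expo σ), ← Real.rpow_mul (nm_pos A _).le,
        mul_comm, Real.rpow_mul (nm_pos A _).le, Real.rpow_natCast]
  refine ⟨∑ r ∈ E0, (C r).map (A'.twist r), fun w hw => ⟨?_, ?_⟩⟩
  · intro σ hσ
    obtain ⟨r, _, h⟩ := Multiset.mem_sum.1 hσ
    obtain ⟨τ, hτ, rfl⟩ := Multiset.mem_map.1 h
    rw [A'.unr_twist]
    exact hunr r _ hw τ hτ w ((E.mem_above _ _).2 rfl)
  · rw [params_fsum]
    have e1 : ∀ r ∈ E0, params A'.toGLSide ((C r).map (A'.twist r)) w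
        = (X w).filter fun a => ‖a‖ = A'.nm w ^ r := by
      intro r _
      have hw' := (E.mem_above (E.below w) w).2 rfl
      rw [params_twist A' _ w (fun θ hθ => hunr r _ hw θ hθ w hw'), hloc r _ hw w hw']
      unfold lay
      rw [Multiset.map_map]
      conv_rhs => rw [← Multiset.map_id ((X w).filter fun a => ‖a‖ = A'.nm w ^ r)]
      apply Multiset.map_congr rfl
      intro a _
      simp only [Function.comp_apply, id]
      rw [← mul_assoc, ← Complex.ofReal_mul, ← Real.rpow_add (nm_pos A' w)]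
      simp
    rw [Finset.sum_congr rfl e1]
    ext a
    rw [Multiset.count_sum']
    by_cases ha : a ∈ X w
    · obtain ⟨r, hr, har⟩ := hnorm w hw a ha
      rw [Finset.sum_eq_single r]
      · rw [Multiset.count_filter, if_pos har]
      · intro r' _ hr'
        rw [Multiset.count_filter, if_neg]
        intro h
        exact hr' (rpow_inj_expo A' w (h.symm.trans har))
      · intro h
        exact absurd hr h
    · rw [Multiset.count_eq_zero_of_notMem ha]
      apply Finset.sum_eq_zero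
      intro r _
      apply Multiset.count_eq_zero_of_notMem
      intro h
      exact ha (Multiset.mem_filter.1 h).1

end Pool.H81.FX
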